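import Mathlib

open MeasureTheory Set Filter Topology Real

namespace Pool.Agent.H94

/-- `F` vanishes on `(-∞,0]` and `e^{-βx} F(x)` is integrable. -/
def LT (β : ℝ) (F : ℝ → ℝ) : Prop :=
  (∀ x ≤ 0, F x = 0) ∧ Integrable (fun x => Real.exp (-(β * x)) * F x)

/-- The Laplace transform. -/
noncomputable def Lap (β : ℝ) (F : ℝ → ℝ) : ℝ := ∫ x, Real.exp (-(β * x)) * F x

/-- Convolution. -/
noncomputable def cv (F K : ℝ → ℝ) : ℝ → ℝ :=
  convolution F K (ContinuousLinearMap.mul ℝ ℝ) volume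

lemma cv_apply (F K : ℝ → ℝ) (x : ℝ) : cv F K x = ∫ t, F t * K (x - t) := rfl

lemma cv_apply_swap (F K : ℝ → ℝ) (x : ℝ) : cv F K x = ∫ t, F (x - t) * K t := by
  unfold cv
  rw [convolution_mul_swap]

lemma cv_comm (F K : ℝ → ℝ) : cv F K = cv K F := by
  ext x
  rw [cv_apply, cv_apply_swap]
  congr 1; ext t; ring

lemma LT.mono {β β' : ℝ} {F : ℝ → ℝ} (h : LT β F) (hb : β ≤ β') : LT β' F := by
  refine ⟨h.1, ?_⟩
  have h1 : (fun x => Real.exp (-(β' * x)) * F x) =
      fun x => (Real.exp (-((β' - β) * (max x 0)))) * (Real.exp (-(β * x)) * F x) := by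
    ext x
    rcases le_or_gt x 0 with hx | hx
    · rw [h.1 x hx]; simp
    · rw [max_eq_left hx.le, ← mul_assoc, ← Real.exp_add]; congr 2; ring
  rw [h1]
  apply h.2.bdd_mul (c := 1)
  · exact (Continuous.aestronglyMeasurable (by fun_prop))
  · apply Eventually.of_forall
    intro x
    rw [Real.norm_eq_abs, abs_of_pos (Real.exp_pos _)]
    rw [Real.exp_le_one_iff]
    have : 0 ≤ (β' - β) * max x 0 := mul_nonneg (by linarith) (le_max_right _ _)
    linarith

lemma LT.aesm {β : ℝ} {F : ℝ → ℝ} (h : LT β F) : AEStronglyMeasurable F := by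
  have h1 : F = fun x => Real.exp (β * x) * (Real.exp (-(β * x)) * F x) := by
    ext x
    rw [← mul_assoc, ← Real.exp_add]; simp
  rw [h1]
  exact (Continuous.aestronglyMeasurable (by fun_prop)).mul h.2.1

lemma LT.locInt {β : ℝ} {F : ℝ → ℝ} (h : LT β F) : LocallyIntegrable F := by
  have h1 : F = fun x => Real.exp (β * x) * (Real.exp (-(β * x)) * F x) := by
    ext x
    rw [← mul_assoc, ← Real.exp_add]; simp
  rw [h1]
  have h2 := h.2.locallyIntegrable
  rw [locallyIntegrable_iff] at h2 ⊢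
  intro k hk
  have := (h2 k hk).continuousOn_mul (g := fun x => Real.exp (β * x))
    (by fun_prop) hk
  exact this

lemma LT.add {β : ℝ} {F K : ℝ → ℝ} (hF : LT β F) (hK : LT β K) : LT β (fun x => F x + K x) := by
  refine ⟨fun x hx => by simp [hF.1 x hx, hK.1 x hx], ?_⟩
  simpa only [mul_add] using! hF.2.add hK.2

lemma LT.const_mul {β : ℝ} {F : ℝ → ℝ} (hF : LT β F) (c : ℝ) : LT β (fun x => c * F x) := by
  refine ⟨fun x hx => by simp [hF.1 x hx], ?_⟩
  have := hF.2.const_mul c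
  refine this.congr (Eventually.of_forall fun x => ?_)
  simp only; ring

lemma LT.neg {β : ℝ} {F : ℝ → ℝ} (hF : LT β F) : LT β (fun x => - F x) := by
  have := hF.const_mul (-1)
  simpa using this

lemma Lap_add {β : ℝ} {F K : ℝ → ℝ} (hF : LT β F) (hK : LT β K) :
    Lap β (fun x => F x + K x) = Lap β F + Lap β K := by
  unfold Lap
  rw [← integral_add hF.2 hK.2]
  congr 1; ext x; ring

lemma Lap_const_mul {β : ℝ} {F : ℝ → ℝ} (c : ℝ) :
    Lap β (fun x => c * F x) = c * Lap β F := by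
  unfold Lap
  rw [← integral_const_mul]
  congr 1; ext x; ring

lemma Lap_neg {β : ℝ} {F : ℝ → ℝ} :
    Lap β (fun x => - F x) = - Lap β F := by
  have := Lap_const_mul (β := β) (F := F) (-1)
  simpa using this

lemma LT.congr {β : ℝ} {F K : ℝ → ℝ} (hF : LT β F) (hK : ∀ x ≤ 0, K x = 0) (h : F =ᵐ[volume] K) :
    LT β K := by
  refine ⟨hK, hF.2.congr ?_⟩
  filter_upwards [h] with x hx
  rw [hx]

lemma Lap_congr {β : ℝ} {F K : ℝ → ℝ} (h : F =ᵐ[volume] K) : Lap β F = Lap β K := by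
  unfold Lap
  apply integral_congr_ae
  filter_upwards [h] with x hx
  rw [hx]

lemma cv_congr {F F' K K' : ℝ → ℝ} (h : F =ᵐ[volume] F') (h' : K =ᵐ[volume] K') :
    cv F K = cv F' K' := convolution_congr _ h h'

/-- The weighted convolution is the convolution of the weighted functions. -/
lemma exp_cv (β : ℝ) (F K : ℝ → ℝ) (x : ℝ) :
    Real.exp (-(β * x)) * cv F K x =
      cv (fun t => Real.exp (-(β * t)) * F t) (fun t => Real.exp (-(β * t)) * K t) x := by
  rw [cv_apply, cv_apply, ← integral_const_mul]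
  congr 1; ext t
  have : Real.exp (-(β * x)) = Real.exp (-(β * t)) * Real.exp (-(β * (x - t))) := by
    rw [← Real.exp_add]; congr 1; ring
  rw [this]; ring

lemma cv_zero_of_nonpos {F K : ℝ → ℝ} (hF : ∀ x ≤ 0, F x = 0) (hK : ∀ x ≤ 0, K x = 0) (x : ℝ)
    (hx : x ≤ 0) : cv F K x = 0 := by
  rw [cv_apply]
  rw [← integral_zero ℝ ℝ]
  congr 1; ext t
  rcases le_or_gt t 0 with h | h
  · rw [hF t h]; simp
  · rw [hK (x - t) (by linarith)]; simp

lemma LT.cv {β : ℝ} {F K : ℝ → ℝ} (hF : LT β F) (hK : LT β K) : LT β (cv F K) := by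
  refine ⟨cv_zero_of_nonpos hF.1 hK.1, ?_⟩
  simp_rw [exp_cv]
  exact hF.2.integrable_convolution _ hK.2

lemma Lap_cv {β : ℝ} {F K : ℝ → ℝ} (hF : LT β F) (hK : LT β K) :
    Lap β (H94.cv F K) = Lap β F * Lap β K := by
  unfold Lap
  simp_rw [exp_cv]
  exact integral_convolution _ hF.2 hK.2

/-- The `L¹` bound for convolutions. -/
lemma norm_cv_le {β : ℝ} {F K : ℝ → ℝ} (hF : LT β F) (hK : LT β K) :
    ∫ x, ‖Real.exp (-(β * x)) * H94.cv F K x‖ ≤
      (∫ x, ‖Real.exp (-(β * x)) * F x‖) * ∫ x, ‖Real.exp (-(β * x)) * K x‖ := by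
  have h1 : ∫ x, H94.cv (fun t => ‖Real.exp (-(β * t)) * F t‖)
      (fun t => ‖Real.exp (-(β * t)) * K t‖) x =
      (∫ x, ‖Real.exp (-(β * x)) * F x‖) * ∫ x, ‖Real.exp (-(β * x)) * K x‖ :=
    integral_convolution _ hF.2.norm hK.2.norm
  rw [← h1]
  apply integral_mono_of_nonneg
  · exact Eventually.of_forall fun x => norm_nonneg _
  · exact hF.2.norm.integrable_convolution _ hK.2.norm
  · apply Eventually.of_forall
    intro x
    simp only
    rw [exp_cv, cv_apply, cv_apply]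
    refine (norm_integral_le_integral_norm _).trans (le_of_eq ?_)
    congr 1; ext t
    rw [norm_mul]

lemma LT.mul_id {β β' : ℝ} {F : ℝ → ℝ} (h : LT β F) (hb : β < β') : LT β' (fun x => x * F x) := by
  refine ⟨fun x hx => by simp [h.1 x hx], ?_⟩
  have h1 : (fun x => Real.exp (-(β' * x)) * (x * F x)) =
      fun x => (max x 0 * Real.exp (-((β' - β) * (max x 0)))) * (Real.exp (-(β * x)) * F x) := by
    ext x
    rcases le_or_gt x 0 with hx | hx
    · rw [h.1 x hx]; simp
    · rw [max_eq_left hx.le]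
      have : Real.exp (-(β' * x)) = Real.exp (-((β' - β) * x)) * Real.exp (-(β * x)) := by
        rw [← Real.exp_add]; congr 1; ring
      rw [this]; ring
  rw [h1]
  apply h.2.bdd_mul (c := 1 / (β' - β))
  · exact (Continuous.aestronglyMeasurable (by fun_prop))
  · apply Eventually.of_forall
    intro x
    have hd : 0 < β' - β := by linarith
    have hm : 0 ≤ max x 0 := le_max_right _ _
    rw [Real.norm_eq_abs, abs_of_nonneg (mul_nonneg hm (Real.exp_pos _).le)]
    have h2 : (β' - β) * max x 0 ≤ Real.exp ((β' - β) * max x 0) := by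
      have := Real.add_one_le_exp ((β' - β) * max x 0)
      linarith
    rw [Real.exp_neg, ← div_eq_mul_inv, div_le_div_iff₀ (Real.exp_pos _) hd]
    linarith

end Pool.Agent.H94
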