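import Mathlib
import Pool.Agent.H94.Laplace

open MeasureTheory Set Filter Topology Real

namespace Pool.Agent.H94

lemma lerch_poly {β : ℝ} {F : ℝ → ℝ} (hF : LT β F) (h : ∀ b, β ≤ b → Lap b F = 0)
    (p : Polynomial ℝ) :
    Integrable (fun x => p.eval (Real.exp (-x)) * (Real.exp (-(β * x)) * F x)) ∧
    ∫ x, p.eval (Real.exp (-x)) * (Real.exp (-(β * x)) * F x) = 0 := by
  have key : ∀ i : ℕ, Integrable (fun x => p.coeff i * (Real.exp (-x)) ^ i *
      (Real.exp (-(β * x)) * F x)) ∧
      ∫ x, p.coeff i * (Real.exp (-x)) ^ i * (Real.exp (-(β * x)) * F x) = 0 := by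
    intro i
    have h1 : (fun x => p.coeff i * (Real.exp (-x)) ^ i * (Real.exp (-(β * x)) * F x)) =
        fun x => p.coeff i * (Real.exp (-((β + i) * x)) * F x) := by
      ext x
      have : Real.exp (-((β + i) * x)) = (Real.exp (-x)) ^ i * Real.exp (-(β * x)) := by
        rw [← Real.exp_nat_mul, ← Real.exp_add]; congr 1; ring
      rw [this]; ring
    have hb : β ≤ β + i := by simp
    rw [h1]
    refine ⟨(hF.mono hb).2.const_mul _, ?_⟩
    rw [integral_const_mul]
    have := h (β + i) hb
    unfold Lap at this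
    rw [this, mul_zero]
  have h2 : (fun x => p.eval (Real.exp (-x)) * (Real.exp (-(β * x)) * F x)) =
      fun x => ∑ i ∈ Finset.range (p.natDegree + 1), p.coeff i * (Real.exp (-x)) ^ i *
        (Real.exp (-(β * x)) * F x) := by
    ext x
    rw [Polynomial.eval_eq_sum_range, Finset.sum_mul]
  rw [h2]
  refine ⟨integrable_finset_sum _ fun i _ => (key i).1, ?_⟩
  rw [integral_finset_sum _ fun i _ => (key i).1]
  exact Finset.sum_eq_zero fun i _ => (key i).2

/-- Uniqueness of the Laplace transform. -/
lemma lerch {β : ℝ} {F : ℝ → ℝ} (hF : LT β F) (h : ∀ b, β ≤ b → Lap b F = 0) :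
    F =ᵐ[volume] 0 := by
  have hmain : ∀ᵐ x ∂(volume : Measure ℝ), x ∈ Ioi (0 : ℝ) → F x = 0 := by
    apply isOpen_Ioi.ae_eq_zero_of_integral_contDiff_smul_eq_zero
      (hF.locInt.locallyIntegrableOn _)
    intro φ hφ hφc hφs
    simp only [smul_eq_mul]
    -- the weighted functions
    set f : ℝ → ℝ := fun x => Real.exp (-(β * x)) * F x with hf
    set ψ : ℝ → ℝ := fun x => φ x * Real.exp (β * x) with hψ
    have hφ0 : ∀ x ≤ 0, φ x = 0 := by
      intro x hx
      apply image_eq_zero_of_notMem_tsupport
      intro hx'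
      exact absurd (hφs hx') (by simpa using hx)
    have hψc : Continuous ψ := hφ.continuous.mul (by fun_prop)
    have hφψ : ∀ x, φ x * F x = ψ x * f x := by
      intro x
      simp only [hf, hψ]
      have : Real.exp (β * x) * Real.exp (-(β * x)) = 1 := by rw [← Real.exp_add]; simp
      calc φ x * F x = φ x * F x * 1 := by ring
        _ = φ x * F x * (Real.exp (β * x) * Real.exp (-(β * x))) := by rw [this]
        _ = _ := by ring
    simp_rw [hφψ]
    -- compact support bound
    obtain ⟨R, hR⟩ : ∃ R : ℝ, ∀ x, R < x → φ x = 0 := by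
      obtain ⟨R, hR⟩ := hφc.isCompact.bddAbove
      refine ⟨R, fun x hx => ?_⟩
      apply image_eq_zero_of_notMem_tsupport
      intro hx'
      exact absurd (hR hx') (by linarith)
    have hcont : ContinuousOn (fun u => ψ (-Real.log u)) (Icc 0 1) := by
      intro u hu
      rcases hu.1.eq_or_lt with h0 | h0
      · subst h0
        have hev : (fun u => ψ (-Real.log u)) =ᶠ[𝓝[Icc (0 : ℝ) 1] 0] fun _ => 0 := by
          have h1 : Iio (Real.exp (-R)) ∈ 𝓝 (0 : ℝ) := Iio_mem_nhds (Real.exp_pos _)
          filter_upwards [mem_nhdsWithin_of_mem_nhds h1, self_mem_nhdsWithin] with u hu1 hu2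
          have hu1 : u < Real.exp (-R) := hu1
          rcases hu2.1.eq_or_lt with h0 | h0
          · subst h0; simp [hψ, hφ0 0 le_rfl]
          · have : R < -Real.log u := by
              have := Real.log_lt_log h0 hu1
              rw [Real.log_exp] at this; linarith
            simp [hψ, hR _ this]
        have h2 : ψ (-Real.log 0) = 0 := by simp [hψ, hφ0 0 le_rfl]
        have h3 : ContinuousWithinAt (fun _ : ℝ => (0 : ℝ)) (Icc (0 : ℝ) 1) 0 :=
          continuousWithinAt_const
        exact h3.congr_of_eventuallyEq hev h2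
      · apply ContinuousAt.continuousWithinAt
        exact (hψc.continuousAt).comp ((Real.continuousAt_log h0.ne').neg)
    have hfint : Integrable f := hF.2
    -- approximate
    have hsmall : ∀ ε > 0, |∫ x, ψ x * f x| ≤ ε * ∫ x, |f x| := by
      intro ε hε
      obtain ⟨p, hp⟩ := exists_polynomial_near_of_continuousOn 0 1 _ hcont ε hε
      obtain ⟨hpi, hp0⟩ := lerch_poly hF h p
      have hψf : Integrable (fun x => ψ x * f x) := by
        apply hfint.bdd_mul (c := ε + ‖(0:ℝ)‖ + (sSup (range fun x => |ψ x|)) ) hψc.aestronglyMeasurable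
        apply Eventually.of_forall
        intro x
        have hb : BddAbove (range fun x => |ψ x|) := by
          have hcs : HasCompactSupport ψ := hφc.mul_right
          obtain ⟨C, hC⟩ := hcs.exists_bound_of_continuous hψc
          exact ⟨C, by rintro _ ⟨x, rfl⟩; exact hC x⟩
        have := le_csSup hb ⟨x, rfl⟩
        simp only at this
        rw [Real.norm_eq_abs]
        simp only [norm_zero, add_zero]
        linarith
      have h1 : ∫ x, ψ x * f x = ∫ x, (ψ x * f x - p.eval (Real.exp (-x)) * f x) := by
        rw [integral_sub hψf hpi, hp0, sub_zero]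
      rw [h1, ← integral_const_mul]
      refine (abs_integral_le_integral_abs).trans ?_
      apply integral_mono_of_nonneg
      · exact Eventually.of_forall fun x => abs_nonneg _
      · exact hfint.abs.const_mul _
      · apply Eventually.of_forall
        intro x
        simp only
        rcases le_or_gt x 0 with hx | hx
        · have : f x = 0 := by simp [hf, hF.1 x hx]
          rw [this]; simp
        · rw [← sub_mul, abs_mul]
          apply mul_le_mul_of_nonneg_right _ (abs_nonneg _)
          have h2 := hp (Real.exp (-x)) ⟨(Real.exp_pos _).le, Real.exp_le_one_iff.2 (by linarith)⟩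
          simp only [Real.log_exp, neg_neg] at h2
          rw [abs_sub_comm] at h2
          exact h2.le
    by_contra hne
    have hpos : 0 < |∫ x, ψ x * f x| := abs_pos.2 hne
    have hI : 0 ≤ ∫ x, |f x| := integral_nonneg fun x => abs_nonneg _
    have h3 := hsmall (|∫ x, ψ x * f x| / (2 * (1 + ∫ x, |f x|))) (by positivity)
    have h4 : |∫ x, ψ x * f x| / (2 * (1 + ∫ x, |f x|)) * ∫ x, |f x| ≤
        |∫ x, ψ x * f x| / 2 := by
      rw [div_mul_eq_mul_div, div_le_div_iff₀ (by positivity) (by norm_num)]
      nlinarith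
    linarith
  filter_upwards [hmain] with x hx
  rcases le_or_gt x 0 with h0 | h0
  · exact hF.1 x h0
  · exact hx h0

lemma lerch_eq {β : ℝ} {F K : ℝ → ℝ} (hF : LT β F) (hK : LT β K)
    (h : ∀ b, β ≤ b → Lap b F = Lap b K) : F =ᵐ[volume] K := by
  have h1 : LT β (fun x => F x + - K x) := hF.add hK.neg
  have h2 := lerch h1 (by
    intro b hb
    rw [Lap_add (hF.mono hb) (hK.mono hb).neg, Lap_neg, h b hb]; simp)
  filter_upwards [h2] with x hx
  have hx : F x + - K x = 0 := hx
  linarith

/-- Two functions, continuous on `(0,∞)` and equal a.e., are equal on `(0,∞)`. -/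
lemma eqOn_of_ae {F K : ℝ → ℝ} (h : F =ᵐ[volume] K) (hF : ContinuousOn F (Ioi 0))
    (hK : ContinuousOn K (Ioi 0)) : EqOn F K (Ioi 0) := by
  apply Measure.eqOn_open_of_ae_eq (μ := (volume : Measure ℝ)) _ isOpen_Ioi hF hK
  exact ae_restrict_of_ae h

end Pool.Agent.H94
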