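import Mathlib
import Pool.Agent.H94.Lerch

open MeasureTheory Set Filter Topology Real

namespace Pool.Agent.H94

/-- The convolution integrand is integrable when one factor is continuous. -/
lemma LT.integrable_integrand {β : ℝ} {F K : ℝ → ℝ} (hF : LT β F) (hK : Continuous K)
    (hK0 : ∀ x ≤ 0, K x = 0) (x : ℝ) : Integrable (fun t => F t * K (x - t)) := by
  have h1 : IntegrableOn (fun t => F t * K (x - t)) (Icc 0 x) := by
    have h2 := hF.locInt.integrableOn_isCompact (isCompact_Icc (a := (0:ℝ)) (b := x))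
    exact h2.mul_continuousOn (by fun_prop) isCompact_Icc
  apply h1.integrable_of_forall_notMem_eq_zero
  intro t ht
  rcases le_or_gt t 0 with h | h
  · rw [hF.1 t h]; simp
  · rcases le_or_gt t x with h' | h'
    · exact absurd ⟨h.le, h'⟩ ht
    · rw [hK0 (x - t) (by linarith)]; simp

lemma LT.contDiff_cv {β : ℝ} {F K : ℝ → ℝ} {n : ℕ∞} (hF : LT β F) (hK : ContDiff ℝ n K)
    (hK0 : ∀ x ≤ 0, K x = 0) : ContDiff ℝ n (H94.cv F K) := by
  rw [contDiff_iff_contDiffAt]
  intro x₀
  set R : ℝ := |x₀| + 1 with hR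
  set ρ : ℝ → ℝ := fun x => 1 - Real.smoothTransition (x - R) with hρ
  have hρs : ContDiff ℝ n ρ := by
    apply contDiff_const.sub
    exact (Real.smoothTransition.contDiff).comp (contDiff_id.sub contDiff_const)
  have hρ1 : ∀ x, x ≤ R → ρ x = 1 := by
    intro x hx
    simp [hρ, Real.smoothTransition.zero_of_nonpos (sub_nonpos.2 hx)]
  have hρ0 : ∀ x, R + 1 ≤ x → ρ x = 0 := by
    intro x hx
    simp [hρ, Real.smoothTransition.one_of_one_le (by linarith : 1 ≤ x - R)]
  set KR : ℝ → ℝ := fun x => ρ x * K x with hKR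
  have hKRs : ContDiff ℝ n KR := hρs.mul hK
  have hKRc : HasCompactSupport KR := by
    apply HasCompactSupport.intro (isCompact_Icc (a := (0 : ℝ)) (b := R + 1))
    intro x hx
    rcases le_or_gt x 0 with h | h
    · simp [hKR, hK0 x h]
    · have : R + 1 ≤ x := by
        by_contra h'
        exact hx ⟨h.le, by linarith⟩
      simp [hKR, hρ0 x this]
  have h1 : ContDiff ℝ n (H94.cv F KR) := hKRc.contDiff_convolution_right _ hF.locInt hKRs
  apply h1.contDiffAt.congr_of_eventuallyEq
  have hx₀ : Iio R ∈ 𝓝 x₀ := Iio_mem_nhds (by rw [hR]; linarith [le_abs_self x₀])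
  filter_upwards [hx₀] with x hx
  have hx : x < R := hx
  rw [cv_apply, cv_apply]
  congr 1; ext t
  rcases le_or_gt t 0 with h | h
  · rw [hF.1 t h]; simp
  · simp only [hKR]
    rw [hρ1 (x - t) (by linarith), one_mul]

/-- The algebra property: functions of class `C^n` on `(0,∞)` are stable under convolution. -/
lemma LT.contDiffOn_cv {β : ℝ} {F K : ℝ → ℝ} {n : ℕ∞} (hF : LT β F) (hK : LT β K)
    (hFn : ContDiffOn ℝ n F (Ioi 0)) (hKn : ContDiffOn ℝ n K (Ioi 0)) :
    ContDiffOn ℝ n (H94.cv F K) (Ioi 0) := by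
  intro x₀ hx₀
  have hx₀ : 0 < x₀ := hx₀
  apply ContDiffAt.contDiffWithinAt
  set θ : ℝ → ℝ := fun x => Real.smoothTransition (12 * x / x₀ - 3) with hθ
  have hθs : ContDiff ℝ n θ := by
    apply (Real.smoothTransition.contDiff).comp
    fun_prop
  have hθ0 : ∀ x, x ≤ x₀ / 4 → θ x = 0 := by
    intro x hx
    apply Real.smoothTransition.zero_of_nonpos
    rw [sub_nonpos, div_le_iff₀ hx₀]; linarith
  have hθ1 : ∀ x, x₀ / 3 ≤ x → θ x = 1 := by
    intro x hx
    apply Real.smoothTransition.one_of_one_le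
    have : 4 ≤ 12 * x / x₀ := by rw [le_div_iff₀ hx₀]; linarith
    linarith
  have hcut : ∀ {L : ℝ → ℝ}, ContDiffOn ℝ n L (Ioi 0) → ContDiff ℝ n (fun x => θ x * L x) := by
    intro L hL
    rw [contDiff_iff_contDiffAt]
    intro x
    rcases lt_or_ge x (x₀ / 4) with h | h
    · have : (fun x => θ x * L x) =ᶠ[𝓝 x] fun _ => 0 := by
        filter_upwards [Iio_mem_nhds h] with y hy
        rw [hθ0 y (le_of_lt hy), zero_mul]
      exact contDiffAt_const.congr_of_eventuallyEq this
    · exact hθs.contDiffAt.mul (hL.contDiffAt (Ioi_mem_nhds (by linarith)))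
  set F₁ : ℝ → ℝ := fun x => θ x * F x with hF₁
  set K₁ : ℝ → ℝ := fun x => θ x * K x with hK₁
  set F₀ : ℝ → ℝ := fun x => (1 - θ x) * F x with hF₀
  have hF₁s : ContDiff ℝ n F₁ := hcut hFn
  have hK₁s : ContDiff ℝ n K₁ := hcut hKn
  have hF₁0 : ∀ x ≤ 0, F₁ x = 0 := fun x hx => by simp [hF₁, hF.1 x hx]
  have hK₁0 : ∀ x ≤ 0, K₁ x = 0 := fun x hx => by simp [hK₁, hK.1 x hx]
  have hF₀LT : LT β F₀ := by
    refine ⟨fun x hx => by simp [hF₀, hF.1 x hx], ?_⟩
    have h1 : (fun x => Real.exp (-(β * x)) * F₀ x) =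
        fun x => (1 - θ x) * (Real.exp (-(β * x)) * F x) := by
      ext x; simp only [hF₀]; ring
    rw [h1]
    apply hF.2.bdd_mul (c := 1)
    · exact (continuous_const.sub hθs.continuous).aestronglyMeasurable
    · apply Eventually.of_forall
      intro x
      rw [Real.norm_eq_abs, abs_le]
      have h1 := Real.smoothTransition.nonneg (12 * x / x₀ - 3)
      have h2 := Real.smoothTransition.le_one (12 * x / x₀ - 3)
      constructor
      · simp only [hθ]; linarith
      · simp only [hθ]; linarith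
  have h1 : ContDiff ℝ n (H94.cv K F₁) := hK.contDiff_cv hF₁s hF₁0
  have h2 : ContDiff ℝ n (H94.cv F₀ K₁) := hF₀LT.contDiff_cv hK₁s hK₁0
  apply (h1.add h2).contDiffAt.congr_of_eventuallyEq
  filter_upwards [Ioi_mem_nhds (by linarith : 2 * x₀ / 3 < x₀)] with x hx
  have hx : 2 * x₀ / 3 < x := hx
  rw [cv_comm K F₁, cv_apply, cv_apply, cv_apply, ← integral_add]
  · congr 1; ext t
    simp only [hF₁, hK₁, hF₀]
    have h3 : (1 - θ t) * (1 - θ (x - t)) = 0 := by
      rcases le_or_gt (x₀ / 3) t with h | h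
      · rw [hθ1 t h]; simp
      · rw [hθ1 (x - t) (by linarith)]; simp
    have h4 : F t * K (x - t) = θ t * F t * K (x - t) + (1 - θ t) * F t * (θ (x - t) * K (x - t)) +
        ((1 - θ t) * (1 - θ (x - t))) * (F t * K (x - t)) := by ring
    rw [h4, h3]; ring
  · have := hK.integrable_integrand hF₁s.continuous hF₁0 x
    have h5 := this.comp_sub_left x
    refine h5.congr (Eventually.of_forall fun t => ?_)
    simp only [sub_sub_cancel]; ring
  · exact hF₀LT.integrable_integrand hK₁s.continuous hK₁0 x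

end Pool.Agent.H94
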