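import Mathlib
import Pool.Agent.H94.ConvSmooth

open MeasureTheory Set Filter Topology Real

namespace Pool.Agent.H94

/-- The Heaviside function. -/
noncomputable def one : ℝ → ℝ := indicator (Ioi 0) (fun _ => 1)

lemma LT_one {β : ℝ} (hβ : 0 < β) : LT β one := by
  refine ⟨fun x hx => by simp [one, hx], ?_⟩
  have h1 : (fun x => Real.exp (-(β * x)) * one x) =
      indicator (Ioi 0) (fun x => Real.exp (-β * x)) := by
    ext x
    by_cases hx : x ∈ Ioi (0 : ℝ)
    · simp [one, hx, indicator_of_mem]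
    · simp [one, hx, indicator_of_notMem]
  rw [h1, integrable_indicator_iff measurableSet_Ioi]
  exact integrableOn_exp_mul_Ioi (by linarith) 0

lemma Lap_one {β : ℝ} (hβ : 0 < β) : Lap β one = 1 / β := by
  unfold Lap
  have h1 : (fun x => Real.exp (-(β * x)) * one x) =
      indicator (Ioi 0) (fun x => Real.exp (-β * x)) := by
    ext x
    by_cases hx : x ∈ Ioi (0 : ℝ)
    · simp [one, hx, indicator_of_mem]
    · simp [one, hx, indicator_of_notMem]
  rw [h1, integral_indicator measurableSet_Ioi, integral_exp_mul_Ioi (by linarith) 0]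
  simp

lemma cv_one_apply {β : ℝ} {φ : ℝ → ℝ} (hφ : LT β φ) (x : ℝ) :
    cv one φ x = ∫ t in (0 : ℝ)..x, φ t := by
  rw [cv_apply_swap]
  have h1 : ∀ t, one (x - t) * φ t = indicator (Iio x) φ t := by
    intro t
    by_cases ht : t < x
    · have h2 : x - t ∈ Ioi (0 : ℝ) := by simpa using ht
      rw [indicator_of_mem (by exact ht), one, indicator_of_mem h2]; simp
    · have h2 : x - t ∉ Ioi (0 : ℝ) := by simpa using ht
      rw [indicator_of_notMem (by exact ht), one, indicator_of_notMem h2]; simp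
  simp_rw [h1]
  rw [integral_indicator measurableSet_Iio]
  rcases le_or_gt x 0 with hx | hx
  · rw [intervalIntegral.integral_of_ge hx]
    rw [setIntegral_eq_zero_of_forall_eq_zero, setIntegral_eq_zero_of_forall_eq_zero]
    · simp
    · intro t ht; exact hφ.1 t ht.2
    · intro t ht; exact hφ.1 t (le_of_lt (lt_of_lt_of_le ht hx))
  · rw [intervalIntegral.integral_of_le hx.le, integral_Ioc_eq_integral_Ioo]
    apply setIntegral_eq_of_subset_of_forall_sdiff_eq_zero measurableSet_Iio
    · intro t ht; exact ht.2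
    · intro t ht
      apply hφ.1
      by_contra h
      exact ht.2 ⟨by linarith [not_le.1 h], ht.1⟩

lemma cv_one_fun {β : ℝ} {φ : ℝ → ℝ} (hφ : LT β φ) :
    cv one φ = fun x => ∫ t in (0 : ℝ)..x, φ t := by
  ext x; exact cv_one_apply hφ x

lemma LT.intervalIntegrable {β : ℝ} {φ : ℝ → ℝ} (hφ : LT β φ) (a b : ℝ) :
    IntervalIntegrable φ volume a b := by
  rw [intervalIntegrable_iff]
  exact (hφ.locInt.integrableOn_isCompact isCompact_uIcc).mono_set uIoc_subset_uIcc

lemma continuous_cv_one {β : ℝ} {φ : ℝ → ℝ} (hφ : LT β φ) : Continuous (cv one φ) := by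
  rw [cv_one_fun hφ]
  exact intervalIntegral.continuous_primitive (fun a b => hφ.intervalIntegrable a b) 0

lemma cv_one_zero {β : ℝ} {φ : ℝ → ℝ} (hφ : LT β φ) (x : ℝ) (hx : x ≤ 0) : cv one φ x = 0 :=
  cv_zero_of_nonpos (fun x hx => by simp [one, hx]) hφ.1 x hx

/-- `F ⋆ (1 ⋆ φ) = 1 ⋆ (F ⋆ φ)`. -/
lemma cv_cv_one {β : ℝ} (hβ : 0 < β) {F φ : ℝ → ℝ} (hF : LT β F) (hφ : LT β φ) :
    cv F (cv one φ) = cv one (cv F φ) := by
  have h1 : LT β one := LT_one hβ
  have hae : cv F (cv one φ) =ᵐ[volume] cv one (cv F φ) := by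
    apply lerch_eq (hF.cv (h1.cv hφ)) (h1.cv (hF.cv hφ))
    intro b hb
    have h1b := h1.mono hb
    have hFb := hF.mono hb
    have hφb := hφ.mono hb
    rw [Lap_cv hFb (h1b.cv hφb), Lap_cv h1b hφb, Lap_cv h1b (hFb.cv hφb), Lap_cv hFb hφb]
    ring
  have hc1 : Continuous (cv F (cv one φ)) := by
    have := hF.contDiff_cv (n := 0) (K := cv one φ)
      (contDiff_zero.2 (continuous_cv_one hφ)) (cv_one_zero hφ)
    exact contDiff_zero.1 this
  have hc2 : Continuous (cv one (cv F φ)) := continuous_cv_one (hF.cv hφ)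
  exact (hc1.ae_eq_iff_eq volume hc2).1 hae

/-- Primitives gain one derivative on `(0,∞)`. -/
lemma hasDerivAt_cv_one {β : ℝ} {ψ : ℝ → ℝ} (hψ : LT β ψ) (hc : ContinuousOn ψ (Ioi 0))
    {x : ℝ} (hx : 0 < x) : HasDerivAt (cv one ψ) (ψ x) x := by
  rw [cv_one_fun hψ]
  apply intervalIntegral.integral_hasDerivAt_right (hψ.intervalIntegrable 0 x)
  · exact hψ.aesm.stronglyMeasurableAtFilter
  · exact hc.continuousAt (Ioi_mem_nhds hx)

lemma contDiffOn_cv_one {β : ℝ} {ψ : ℝ → ℝ} (hψ : LT β ψ) (n : ℕ)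
    (hc : ContDiffOn ℝ n ψ (Ioi 0)) : ContDiffOn ℝ (n + 1) (cv one ψ) (Ioi 0) := by
  have hd : ∀ x ∈ Ioi (0 : ℝ), HasDerivAt (cv one ψ) (ψ x) x := fun x hx =>
    hasDerivAt_cv_one hψ hc.continuousOn hx
  rw [contDiffOn_succ_iff_deriv_of_isOpen isOpen_Ioi]
  refine ⟨fun x hx => (hd x hx).differentiableAt.differentiableWithinAt, by simp, ?_⟩
  exact hc.congr fun x hx => (hd x hx).deriv

/-- A primitive of class `C^{n+1}` on `(0,∞)` convolved with a function of class `C^n`. -/
lemma contDiffOn_cv_primitive {β : ℝ} (hβ : 0 < β) {F φ : ℝ → ℝ} (hF : LT β F) (hφ : LT β φ)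
    (n : ℕ) (hFn : ContDiffOn ℝ n F (Ioi 0)) (hf : ContDiffOn ℝ (n + 1) (cv one φ) (Ioi 0)) :
    ContDiffOn ℝ (n + 1) (cv F (cv one φ)) (Ioi 0) := by
  set f := cv one φ with hfdef
  set φ' : ℝ → ℝ := indicator (Ioi 0) (deriv f) with hφ'
  have hae : φ =ᵐ[volume] φ' := by
    have h1 := LocallyIntegrable.ae_hasDerivAt_integral hφ.locInt
    filter_upwards [h1] with x hx
    have h2 := hx 0
    rw [← cv_one_fun hφ] at h2
    rcases le_or_gt x 0 with h0 | h0
    · rw [hφ.1 x h0, hφ', indicator_of_notMem (by simpa using h0)]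
    · rw [hφ', indicator_of_mem (by exact h0), ← h2.deriv]
  have hLT : LT β φ' := hφ.congr (fun x hx => by
    rw [hφ', indicator_of_notMem (by simpa using hx)]) hae
  have hφn : ContDiffOn ℝ n φ' (Ioi 0) := by
    rw [contDiffOn_succ_iff_deriv_of_isOpen isOpen_Ioi] at hf
    exact hf.2.2.congr fun x hx => by rw [hφ', indicator_of_mem hx]
  have h3 : cv F f = cv one (cv F φ') := by
    rw [hfdef, cv_cv_one hβ hF hφ, cv_congr (EventuallyEq.refl _ F) hae]
  rw [h3]
  apply contDiffOn_cv_one (hF.cv hLT)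
  exact hF.contDiffOn_cv (n := n) hLT hFn hφn

lemma contDiffOn_mul_id {n : WithTop ℕ∞} {G : ℝ → ℝ} (hG : ContDiffOn ℝ n G (Ioi 0)) :
    ContDiffOn ℝ n (fun x => x * G x) (Ioi 0) := contDiffOn_id.mul hG

lemma contDiffOn_of_mul_id {n : WithTop ℕ∞} {G : ℝ → ℝ}
    (hG : ContDiffOn ℝ n (fun x => x * G x) (Ioi 0)) :
    ContDiffOn ℝ n G (Ioi 0) := by
  have h1 : ContDiffOn ℝ n (fun x : ℝ => x⁻¹) (Ioi 0) :=
    contDiffOn_id.inv fun x hx => ne_of_gt hx
  refine (h1.mul hG).congr fun x hx => ?_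
  have : x ≠ 0 := ne_of_gt hx
  field_simp

/-- One direction of the transfer of smoothness between `G` and its resolvent `H`. -/
lemma smooth_dir {β : ℝ} (hβ : 0 < β) {G H φ : ℝ → ℝ} (hH : LT β H)
    (hφ : LT β φ) (hu : (fun x => x * G x) = cv one φ)
    (hid : ∀ x, 0 < x → x * H x = x * G x +
      cv (fun y => -2 * H y + cv H H y) (fun y => y * G y) x) :
    ∀ n : ℕ, ContDiffOn ℝ n G (Ioi 0) → ContDiffOn ℝ n H (Ioi 0) := by
  have hF : LT β (fun y => -2 * H y + cv H H y) := (hH.const_mul (-2)).add (hH.cv hH)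
  intro n
  induction n with
  | zero =>
    intro _
    apply contDiffOn_of_mul_id
    have h1 : Continuous (fun x => x * G x) := by rw [hu]; exact continuous_cv_one hφ
    have h2 : ContDiff ℝ 0 (cv (fun y => -2 * H y + cv H H y) (fun y => y * G y)) := by
      apply hF.contDiff_cv (n := 0) (contDiff_zero.2 h1)
      intro x hx
      have := congrFun hu x
      rw [this]; exact cv_one_zero hφ x hx
    have h3 : ContDiff ℝ 0 (fun x => x * G x +
        cv (fun y => -2 * H y + cv H H y) (fun y => y * G y) x) :=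
      (contDiff_zero.2 h1).add h2
    exact (h3.contDiffOn (s := Ioi 0)).congr fun x hx => hid x hx
  | succ n ih =>
    intro hG
    have hG' : ContDiffOn ℝ n G (Ioi 0) := hG.of_le (by exact_mod_cast Nat.le_succ n)
    have hHn := ih hG'
    have hFn : ContDiffOn ℝ n (fun y => -2 * H y + cv H H y) (Ioi 0) :=
      (contDiffOn_const.mul hHn).add (hH.contDiffOn_cv (n := n) hH hHn hHn)
    have huG : ContDiffOn ℝ (n + 1) (fun x => x * G x) (Ioi 0) := by
      apply contDiffOn_mul_id
      exact_mod_cast hG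
    have h1 : ContDiffOn ℝ (n + 1) (cv (fun y => -2 * H y + cv H H y) (fun y => y * G y))
        (Ioi 0) := by
      rw [hu]
      apply contDiffOn_cv_primitive hβ hF hφ n hFn
      rw [← hu]; exact huG
    have h2 : ContDiffOn ℝ (n + 1) H (Ioi 0) := by
      apply contDiffOn_of_mul_id
      exact (huG.add h1).congr fun x hx => hid x hx
    exact_mod_cast h2

/-- Derivative of the Laplace transform. -/
lemma hasDerivAt_Lap {β b : ℝ} {F : ℝ → ℝ} (hF : LT β F) (hb : β < b) :
    HasDerivAt (fun b => Lap b F) (- Lap b (fun x => x * F x)) b := by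
  set b' : ℝ := (β + b) / 2 with hb'
  have hb1 : β < b' := by rw [hb']; linarith
  have hb2 : b' < b := by rw [hb']; linarith
  have h1 : - Lap b (fun x => x * F x) = ∫ x, (-x) * Real.exp (-(b * x)) * F x := by
    unfold Lap
    rw [← integral_neg]
    congr 1; ext x; ring
  rw [h1]
  have hU : Ioi b' ∈ 𝓝 b := Ioi_mem_nhds hb2
  have key := hasDerivAt_integral_of_dominated_loc_of_deriv_le (μ := volume) (𝕜 := ℝ)
    (F := fun b x => Real.exp (-(b * x)) * F x)
    (F' := fun b x => (-x) * Real.exp (-(b * x)) * F x) (x₀ := b) (s := Ioi b')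
    (bound := fun x => |Real.exp (-(b' * x)) * (x * F x)|) hU ?_ ?_ ?_ ?_ ?_ ?_
  · exact key.2
  · apply Eventually.of_forall
    intro c
    exact (Continuous.aestronglyMeasurable (by fun_prop)).mul hF.aesm
  · exact (hF.mono hb.le).2
  · exact (Continuous.aestronglyMeasurable (by fun_prop)).mul hF.aesm
  · apply Eventually.of_forall
    intro x c hc
    have hc : b' < c := hc
    rcases le_or_gt x 0 with hx | hx
    · rw [hF.1 x hx]; simp
    · rw [Real.norm_eq_abs, show -x * Real.exp (-(c * x)) * F x =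
        Real.exp (-(c * x)) * (-(x * F x)) by ring, abs_mul, abs_mul, abs_neg,
        abs_of_pos (Real.exp_pos _), abs_of_pos (Real.exp_pos _)]
      apply mul_le_mul_of_nonneg_right _ (abs_nonneg _)
      apply Real.exp_le_exp.2
      nlinarith
  · exact (hF.mul_id hb1).2.abs
  · apply Eventually.of_forall
    intro x c _
    have h2 : HasDerivAt (fun c : ℝ => Real.exp (-(c * x))) (Real.exp (-(c * x)) * (-x)) c := by
      have h3 : HasDerivAt (fun c : ℝ => -(c * x)) (-x) c := by
        simpa using! ((hasDerivAt_id c).mul_const x).neg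
      exact h3.exp
    have h4 := h2.mul_const (F x)
    convert! h4 using 1
    ring

end Pool.Agent.H94
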