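import Mathlib
import Pool.Agent.H94.Resolvent

open MeasureTheory Set Filter Topology Real

namespace Pool.Agent.H94

lemma integrable_tsum' {f : ℕ → ℝ → ℝ} (hf : ∀ n, Integrable (f n))
    (hs : Summable fun n => ∫ x, ‖f n x‖) : Integrable (fun x => ∑' n, f n x) := by
  have h1 : ∑' n, ∫⁻ x, ‖f n x‖ₑ ≠ ⊤ := by
    have (i : ℕ) : ∫⁻ a, ‖f i a‖ₑ = ENNReal.ofReal (∫ a, ‖f i a‖) := by
      rw [ofReal_integral_norm_eq_lintegral_enorm (hf i)]
    simp_rw [this]
    rw [← ENNReal.ofReal_tsum_of_nonneg (fun n => integral_nonneg fun x => norm_nonneg _) hs]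
    exact ENNReal.ofReal_ne_top
  have h2 : ∫⁻ x, ∑' n, ‖f n x‖ₑ ≠ ⊤ := by
    rw [lintegral_tsum fun n => (hf n).1.enorm]
    exact h1
  have h3 : ∀ᵐ x, ∑' n, ‖f n x‖ₑ < ⊤ :=
    ae_lt_top' (AEMeasurable.tsum fun n => (hf n).1.enorm) h2
  have h4 : ∀ᵐ x, Summable (fun n => f n x) := by
    filter_upwards [h3] with x hx
    exact (tsum_enorm_ne_top_iff_summable_norm.1 hx.ne).of_norm
  refine ⟨?_, ?_⟩
  · apply aestronglyMeasurable_of_tendsto_ae (u := atTop)
      (f := fun (N : ℕ) x => ∑ n ∈ Finset.range N, f n x)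
    · intro N
      exact Finset.aestronglyMeasurable_fun_sum _ fun n _ => (hf n).1
    · filter_upwards [h4] with x hx
      exact hx.hasSum.tendsto_sum_nat
  · refine lt_of_le_of_lt ?_ h2.lt_top
    apply lintegral_mono
    intro x
    exact enorm_tsum_le_tsum_enorm

/-- The terms of the Neumann series. -/
noncomputable def P (G : ℝ → ℝ) : ℕ → ℝ → ℝ
  | 0 => G
  | (n + 1) => fun x => - cv G (P G n) x

lemma P_LT {β : ℝ} {G : ℝ → ℝ} (hG : LT β G) (n : ℕ) : LT β (P G n) := by
  induction n with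
  | zero => exact hG
  | succ n ih => exact (hG.cv ih).neg

lemma P_norm {β : ℝ} {G : ℝ → ℝ} (hG : LT β G) (n : ℕ) :
    ∫ x, ‖Real.exp (-(β * x)) * P G n x‖ ≤ (∫ x, ‖Real.exp (-(β * x)) * G x‖) ^ (n + 1) := by
  induction n with
  | zero => simp [P]
  | succ n ih =>
    have h0 : 0 ≤ ∫ x, ‖Real.exp (-(β * x)) * G x‖ := integral_nonneg fun x => norm_nonneg _
    have h1 : ∫ x, ‖Real.exp (-(β * x)) * P G (n + 1) x‖ =
        ∫ x, ‖Real.exp (-(β * x)) * cv G (P G n) x‖ := by
      congr 1; ext x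
      simp [P]
    rw [h1]
    refine (norm_cv_le hG (P_LT hG n)).trans ?_
    rw [pow_succ' _ (n + 1)]
    exact mul_le_mul_of_nonneg_left ih h0

lemma P_Lap {β : ℝ} {G : ℝ → ℝ} (hG : LT β G) (n : ℕ) :
    Lap β (P G n) = (-1) ^ n * (Lap β G) ^ (n + 1) := by
  induction n with
  | zero => simp [P]
  | succ n ih =>
    have : P G (n + 1) = fun x => - cv G (P G n) x := rfl
    rw [this, Lap_neg, Lap_cv hG (P_LT hG n), ih]
    ring

lemma norm_anti {β b : ℝ} {G : ℝ → ℝ} (hG : LT β G) (hb : β ≤ b) :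
    ∫ x, ‖Real.exp (-(b * x)) * G x‖ ≤ ∫ x, ‖Real.exp (-(β * x)) * G x‖ := by
  apply integral_mono (hG.mono hb).2.norm hG.2.norm
  intro x
  simp only
  rcases le_or_gt x 0 with hx | hx
  · rw [hG.1 x hx]; simp
  · rw [norm_mul, norm_mul]
    apply mul_le_mul_of_nonneg_right _ (norm_nonneg _)
    rw [Real.norm_eq_abs, Real.norm_eq_abs, abs_of_pos (Real.exp_pos _),
      abs_of_pos (Real.exp_pos _)]
    apply Real.exp_le_exp.2
    nlinarith

/-- The resolvent exists. -/
lemma neumann {β : ℝ} {G : ℝ → ℝ} (hG : LT β G)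
    (hn : ∫ x, ‖Real.exp (-(β * x)) * G x‖ < 1) :
    ∃ H, LT β H ∧ ∀ b, β ≤ b → (1 + Lap b G) * (1 - Lap b H) = 1 := by
  have h0 : ∀ b, 0 ≤ ∫ x, ‖Real.exp (-(b * x)) * G x‖ :=
    fun b => integral_nonneg fun x => norm_nonneg _
  have hsum : ∀ b, β ≤ b → Summable fun n => ∫ x, ‖Real.exp (-(b * x)) * P G n x‖ := by
    intro b hb
    have hη : ∫ x, ‖Real.exp (-(b * x)) * G x‖ < 1 := (norm_anti hG hb).trans_lt hn
    apply Summable.of_nonneg_of_le (fun n => integral_nonneg fun x => norm_nonneg _)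
      (fun n => P_norm (hG.mono hb) n)
    exact (summable_nat_add_iff 1).2 (summable_geometric_of_lt_one (h0 b) hη)
  refine ⟨fun x => ∑' n, P G n x, ⟨?_, ?_⟩, ?_⟩
  · intro x hx
    have : ∀ n, P G n x = 0 := fun n => (P_LT hG n).1 x hx
    simp [this]
  · have h1 : (fun x => Real.exp (-(β * x)) * ∑' n, P G n x) =
        fun x => ∑' n, Real.exp (-(β * x)) * P G n x := by
      ext x; rw [tsum_mul_left]
    rw [h1]
    exact integrable_tsum' (fun n => (P_LT hG n).2) (hsum β le_rfl)
  · intro b hb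
    have hη : ∫ x, ‖Real.exp (-(b * x)) * G x‖ < 1 := (norm_anti hG hb).trans_lt hn
    have hlt : |Lap b G| < 1 := by
      refine lt_of_le_of_lt ?_ hη
      exact norm_integral_le_integral_norm (fun x => Real.exp (-(b * x)) * G x)
    have h1 : Lap b (fun x => ∑' n, P G n x) = ∑' n, Lap b (P G n) := by
      unfold Lap
      have h2 : (fun x => Real.exp (-(b * x)) * ∑' n, P G n x) =
          fun x => ∑' n, Real.exp (-(b * x)) * P G n x := by
        ext x; rw [tsum_mul_left]
      rw [h2]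
      exact (hasSum_integral_of_summable_integral_norm (fun n => (P_LT (hG.mono hb) n).2)
        (hsum b hb)).tsum_eq.symm
    have h2 : ∑' n, Lap b (P G n) = Lap b G / (1 + Lap b G) := by
      have h3 : ∀ n, Lap b (P G n) = Lap b G * (-Lap b G) ^ n := by
        intro n
        rw [P_Lap (hG.mono hb) n, neg_pow]
        ring
      simp_rw [h3]
      rw [tsum_mul_left, tsum_geometric_of_abs_lt_one (by rwa [abs_neg])]
      rw [sub_neg_eq_add, div_eq_mul_inv]
    rw [h1, h2]
    have h4 : 1 + Lap b G ≠ 0 := by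
      have := (abs_lt.1 hlt).1
      linarith
    field_simp
    ring

/-- The full transfer theorem between `G` and its resolvent. -/
lemma resolvent {β : ℝ} (hβ : 0 < β) {G φ : ℝ → ℝ} (hG : LT β G) (hφ : LT β φ)
    (hu : (fun x => x * G x) = cv one φ)
    (hn : ∫ x, ‖Real.exp (-(β * x)) * G x‖ < 1) :
    ∃ H, LT (β + 1) H ∧ (∀ b, β + 1 ≤ b → (1 + Lap b G) * (1 - Lap b H) = 1) ∧
      ContinuousOn H (Ioi 0) ∧
      ∀ n : ℕ, ContDiffOn ℝ n G (Ioi 0) ↔ ContDiffOn ℝ n H (Ioi 0) := by
  obtain ⟨H₀, hH₀, hres⟩ := neumann hG hn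
  set β' : ℝ := β + 1 with hβ'
  have hββ' : β < β' := by rw [hβ']; linarith
  have hβ'0 : 0 < β' := by linarith
  have hG' : LT β' G := hG.mono hββ'.le
  have hφ' : LT β' φ := hφ.mono hββ'.le
  have hH₀' : LT β' H₀ := hH₀.mono hββ'.le
  have h1' : LT β' one := LT_one hβ'0
  set u : ℝ → ℝ := fun x => x * G x with hudef
  have huLT : LT β' u := hG.mul_id hββ'
  set F₀ : ℝ → ℝ := fun y => -2 * H₀ y + cv H₀ H₀ y with hF₀
  have hF₀LT : LT β' F₀ := (hH₀'.const_mul (-2)).add (hH₀'.cv hH₀')
  set v : ℝ → ℝ := fun x => u x + cv F₀ u x with hv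
  have hvLT : LT β' v := huLT.add (hF₀LT.cv huLT)
  -- the derivative identity
  have hder : ∀ b, β' ≤ b → Lap b (fun x => x * H₀ x) = Lap b u * (1 - Lap b H₀) ^ 2 := by
    intro b hb
    have hb' : β < b := by linarith
    have d1 := (hasDerivAt_Lap hG hb').const_add 1
    have d2 := (hasDerivAt_Lap hH₀ hb').const_sub 1
    have d3 := d1.mul d2
    have d4 : HasDerivAt (fun b => (1 + Lap b G) * (1 - Lap b H₀)) 0 b := by
      have : (fun b => (1 + Lap b G) * (1 - Lap b H₀)) =ᶠ[𝓝 b] fun _ => 1 := by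
        filter_upwards [Ioi_mem_nhds hb'] with c hc
        exact hres c (le_of_lt hc)
      exact (hasDerivAt_const b (1 : ℝ)).congr_of_eventuallyEq this
    have d5 := d3.unique d4
    have h1 := hres b hb'.le
    have h2 : Lap b u * (1 - Lap b H₀) = (1 + Lap b G) * Lap b (fun x => x * H₀ x) := by
      have : Lap b u = Lap b (fun x => x * G x) := rfl
      rw [this]
      linarith
    calc Lap b (fun x => x * H₀ x) =
        ((1 + Lap b G) * (1 - Lap b H₀)) * Lap b (fun x => x * H₀ x) := by rw [h1, one_mul]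
      _ = (1 - Lap b H₀) * ((1 + Lap b G) * Lap b (fun x => x * H₀ x)) := by ring
      _ = _ := by rw [← h2]; ring
  have hvae : (fun x => x * H₀ x) =ᵐ[volume] v := by
    apply lerch_eq (hH₀.mul_id hββ') hvLT
    intro b hb
    have hG'b := hG'.mono hb
    have hH₀b := hH₀'.mono hb
    have hub := huLT.mono hb
    have hFb := hF₀LT.mono hb
    rw [hder b hb, hv, Lap_add hub (hFb.cv hub), Lap_cv hFb hub, hF₀,
      Lap_add (hH₀b.const_mul (-2)) (hH₀b.cv hH₀b), Lap_const_mul, Lap_cv hH₀b hH₀b]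
    ring
  -- the good representative
  set H : ℝ → ℝ := fun x => if 0 < x then v x / x else 0 with hH
  have hHae : H₀ =ᵐ[volume] H := by
    filter_upwards [hvae] with x hx
    simp only [hH]
    split_ifs with h
    · rw [← hx]; field_simp
    · exact hH₀.1 x (not_lt.1 h)
  have hH0 : ∀ x ≤ 0, H x = 0 := fun x hx => by simp [hH, not_lt.2 hx]
  have hHLT : LT β' H := hH₀'.congr hH0 hHae
  have hHLT0 : LT β H := hH₀.congr hH0 hHae
  have hvH : ∀ x, 0 < x → x * H x = v x := by
    intro x hx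
    simp only [hH, if_pos hx]
    field_simp
  have hresH : ∀ b, β ≤ b → (1 + Lap b G) * (1 - Lap b H) = 1 := by
    intro b hb
    rw [← Lap_congr hHae]; exact hres b hb
  have hFeq : (fun y => -2 * H y + cv H H y) =ᵐ[volume] F₀ := by
    filter_upwards [hHae] with x hx
    simp only [hF₀]
    rw [hx, cv_congr hHae hHae]
  have hcvF : cv (fun y => -2 * H y + cv H H y) u = cv F₀ u :=
    cv_congr hFeq (EventuallyEq.refl _ _)
  have hid1 : ∀ x, 0 < x → x * H x = x * G x +
      cv (fun y => -2 * H y + cv H H y) (fun y => y * G y) x := by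
    intro x hx
    rw [hvH x hx, hcvF]
  have dir1 := smooth_dir hβ'0 hHLT hφ' hu hid1
  -- `v` is a primitive as well
  have hF₀φ : LT β' (cv F₀ φ) := hF₀LT.cv hφ'
  have hvprim : v = cv one (fun x => φ x + cv F₀ φ x) := by
    have h2 : cv F₀ u = cv one (cv F₀ φ) := by
      rw [hu]; exact cv_cv_one hβ'0 hF₀LT hφ'
    ext x
    rw [hv]
    simp only
    rw [h2, cv_one_apply (hφ'.add hF₀φ), cv_one_apply hF₀φ,
      intervalIntegral.integral_add (hφ'.intervalIntegrable 0 x) (hF₀φ.intervalIntegrable 0 x)]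
    congr 1
    have := congrFun hu x
    rw [this, cv_one_apply hφ']
  have hxH : (fun x => x * H x) = v := by
    ext x
    rcases le_or_gt x 0 with hx | hx
    · rw [hH0 x hx, mul_zero, hvLT.1 x hx]
    · exact hvH x hx
  have hvcont : Continuous v := by
    rw [hvprim]; exact continuous_cv_one (hφ'.add hF₀φ)
  have hHcont : ContinuousOn H (Ioi 0) := by
    have : ContDiffOn ℝ 0 H (Ioi 0) := by
      apply contDiffOn_of_mul_id
      rw [hxH]; exact contDiffOn_zero.2 hvcont.continuousOn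
    exact contDiffOn_zero.1 this
  -- the reverse direction
  have hid2 : ∀ x, 0 < x → x * (- G x) = x * (- H x) +
      cv (fun y => -2 * (- G y) + cv (fun z => - G z) (fun z => - G z) y)
        (fun y => y * (- H y)) x := by
    set K : ℝ → ℝ := fun y => -2 * (- G y) + cv (fun z => - G z) (fun z => - G z) y with hK
    have hKLT : LT β' K := (hG'.neg.const_mul (-2)).add (hG'.neg.cv hG'.neg)
    have hw : (fun y => y * (- H y)) = fun y => - v y := by
      ext y
      have := congrFun hxH y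
      rw [← this]; ring
    have hwLT : LT β' (fun y => - v y) := hvLT.neg
    rw [hw]
    have hcont : Continuous (cv K (fun y => - v y)) := by
      have := hKLT.contDiff_cv (n := 0) (K := fun y => - v y) (contDiff_zero.2 hvcont.neg)
        hwLT.1
      exact contDiff_zero.1 this
    have hae : (fun x => - u x) =ᵐ[volume] fun x => - v x + cv K (fun y => - v y) x := by
      apply lerch_eq huLT.neg (hwLT.add (hKLT.cv hwLT))
      intro b hb
      have hbb : β ≤ b := by linarith
      have hG'b := hG'.mono hb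
      have hub := huLT.mono hb
      have hvb := hvLT.mono hb
      have hKb := hKLT.mono hb
      rw [Lap_neg, Lap_add hvb.neg (hKb.cv hvb.neg), Lap_cv hKb hvb.neg, Lap_neg, hK,
        Lap_add (hG'b.neg.const_mul (-2)) (hG'b.neg.cv hG'b.neg), Lap_const_mul,
        Lap_cv hG'b.neg hG'b.neg, Lap_neg]
      have h1 := hder b hb
      have h2 := hres b hbb
      have h3 : Lap b v = Lap b u * (1 - Lap b H₀) ^ 2 := by
        rw [← h1]; exact (Lap_congr hvae).symm
      rw [h3]
      have h4 : Lap b u = Lap b u * ((1 + Lap b G) * (1 - Lap b H₀)) ^ 2 := by rw [h2]; ring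
      linear_combination (-1) * h4
    have huc : Continuous u := by rw [hu]; exact continuous_cv_one hφ'
    have heq := (huc.neg.ae_eq_iff_eq volume (hvcont.neg.add hcont)).1 hae
    intro x hx
    have h5 : - u x = - v x + cv K (fun y => - v y) x := congrFun heq x
    have h6 := congrFun hxH x
    have h7 : u x = x * G x := rfl
    linarith
  have hneg2 : (fun x => x * (- H x)) = cv one (fun x => - (φ x + cv F₀ φ x)) := by
    ext x
    have h5 := congrFun hxH x
    rw [mul_neg, h5, hvprim, cv_one_apply (hφ'.add hF₀φ), cv_one_apply (hφ'.add hF₀φ).neg,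
      intervalIntegral.integral_neg]
  have dir2 := smooth_dir hβ'0 hG'.neg (hφ'.add hF₀φ).neg hneg2 hid2
  refine ⟨H, hHLT, fun b hb => hresH b (by linarith), hHcont, fun n => ⟨dir1 n, fun h => ?_⟩⟩
  have h1 := dir2 n h.neg
  have h2 := h1.neg
  simpa using! h2

end Pool.Agent.H94
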