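import Mathlib
import Pool.Agent.H94.Neumann

open MeasureTheory Set Filter Topology Real

namespace Pool.Agent.H94

/-- The tail of the measure. -/
noncomputable def T (μ : Measure ℝ) (t : ℝ) : ℝ := (μ (Iio (-t))).toReal

/-- The kernel. -/
noncomputable def kap (t x : ℝ) : ℝ := (if -1 < x then -x else 0) - min t (-x)

/-- `K t = ∫ kap t x dμ(x)`. -/
noncomputable def K (μ : Measure ℝ) (t : ℝ) : ℝ := ∫ x, kap t x ∂μ

section

variable {μ : Measure ℝ}

lemma ae_neg (hμ0 : μ (Ici 0) = 0) : ∀ᵐ x ∂μ, x < 0 := by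
  rw [ae_iff]
  have : {a : ℝ | ¬ a < 0} = Ici 0 := by ext x; simp
  rw [this]; exact hμ0

lemma integrable_min (hμ : ∫⁻ x, ENNReal.ofReal (min 1 (x ^ 2)) ∂μ < ⊤) :
    Integrable (fun x => min 1 (x ^ 2)) μ := by
  refine ⟨(Continuous.aestronglyMeasurable (by fun_prop)), ?_⟩
  unfold HasFiniteIntegral
  refine lt_of_le_of_lt (le_of_eq ?_) hμ
  apply lintegral_congr
  intro x
  rw [Real.enorm_eq_ofReal]
  positivity

lemma pow_pos_of_ne (x : ℝ) (hx : x ≠ 0) : 0 < x ^ 2 := by positivity

lemma sigmaFinite_of (hμ0 : μ (Ici 0) = 0)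
    (hμ : ∫⁻ x, ENNReal.ofReal (min 1 (x ^ 2)) ∂μ < ⊤) : SigmaFinite μ := by
  have h1 : MemLp (fun x : ℝ => min 1 (x ^ 2)) 1 μ := memLp_one_iff_integrable.2 (integrable_min hμ)
  obtain ⟨t, ht, h2, h3⟩ := (h1.aefinStronglyMeasurable one_ne_zero
    ENNReal.one_ne_top).exists_set_sigmaFinite
  have h4 : μ tᶜ = 0 := by
    rw [EventuallyEq, ae_restrict_iff' ht.compl] at h2
    have h5 : ∀ᵐ x ∂μ, x ∉ tᶜ := by
      filter_upwards [h2, ae_neg hμ0] with x hx hx0 hxt
      have h6 := hx hxt
      have h7 : 0 < min 1 (x ^ 2) := lt_min one_pos (pow_pos_of_ne x hx0.ne)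
      simp only [Pi.zero_apply] at h6
      linarith
    rw [ae_iff] at h5
    simpa using! h5
  have h5 : μ.restrict t = μ := by
    rw [Measure.restrict_eq_self_of_ae_mem]
    rw [ae_iff]
    exact h4
  rwa [h5] at h3

lemma finite_Iio (hμ : ∫⁻ x, ENNReal.ofReal (min 1 (x ^ 2)) ∂μ < ⊤) {t : ℝ} (ht : 0 < t) :
    μ (Iio (-t)) < ⊤ := by
  have h1 : ENNReal.ofReal (min 1 (t ^ 2)) * μ (Iio (-t)) ≤
      ∫⁻ x, ENNReal.ofReal (min 1 (x ^ 2)) ∂μ := by
    calc ENNReal.ofReal (min 1 (t ^ 2)) * μ (Iio (-t)) =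
        ∫⁻ x in Iio (-t), ENNReal.ofReal (min 1 (t ^ 2)) ∂μ := by
          rw [setLIntegral_const]
      _ ≤ ∫⁻ x in Iio (-t), ENNReal.ofReal (min 1 (x ^ 2)) ∂μ := by
          apply setLIntegral_mono (by fun_prop)
          intro x hx
          have hx : x < -t := hx
          apply ENNReal.ofReal_le_ofReal
          apply min_le_min le_rfl
          nlinarith
      _ ≤ _ := setLIntegral_le_lintegral _ _
  by_contra h
  have h2 : μ (Iio (-t)) = ⊤ := not_lt_top_iff.1 h
  have h3 : 0 < min 1 (t ^ 2) := lt_min one_pos (by positivity)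
  rw [h2, ENNReal.mul_top (ne_of_gt (ENNReal.ofReal_pos.2 h3))] at h1
  exact absurd (lt_of_le_of_lt h1 hμ) (lt_irrefl _)

lemma T_nonneg (t : ℝ) : 0 ≤ T μ t := ENNReal.toReal_nonneg

lemma T_anti (hμ : ∫⁻ x, ENNReal.ofReal (min 1 (x ^ 2)) ∂μ < ⊤) {s t : ℝ} (hs : 0 < s)
    (hst : s ≤ t) : T μ t ≤ T μ s := by
  apply ENNReal.toReal_mono (finite_Iio hμ hs).ne
  apply measure_mono
  intro x hx
  have hx : x < -t := hx
  change x < -s
  linarith

lemma T_measurable : Measurable (T μ) := by
  unfold T
  apply Measurable.ennreal_toReal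
  apply Antitone.measurable
  intro s t hst
  apply measure_mono
  intro x hx
  have hx : x < -t := hx
  change x < -s
  linarith

/-- Right-continuity of the tail. -/
lemma T_right_cont (hμ : ∫⁻ x, ENNReal.ofReal (min 1 (x ^ 2)) ∂μ < ⊤) {t : ℝ} (ht : 0 < t) :
    ContinuousWithinAt (T μ) (Ici t) t := by
  have h1 : Tendsto (fun s => μ (Iio (-s))) (𝓝[≥] t) (𝓝 (μ (Iio (-t)))) := by
    rw [tendsto_order]
    constructor
    · intro a ha
      -- sequence approximating from the right
      have hU : (⋃ n : ℕ, Iio (-(t + 1 / ((n : ℝ) + 1)))) = Iio (-t) := by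
        ext x
        simp only [mem_iUnion, mem_Iio]
        constructor
        · rintro ⟨n, hn⟩
          have : (0 : ℝ) < 1 / ((n : ℝ) + 1) := by positivity
          linarith
        · intro hx
          obtain ⟨n, hn⟩ := exists_nat_one_div_lt (show (0:ℝ) < -t - x by linarith)
          exact ⟨n, by linarith⟩
      have hmono : Monotone fun n : ℕ => Iio (-(t + 1 / ((n : ℝ) + 1))) := by
        intro m n hmn x hx
        have hx : x < -(t + 1 / ((m : ℝ) + 1)) := hx
        change x < -(t + 1 / ((n : ℝ) + 1))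
        have : 1 / ((n : ℝ) + 1) ≤ 1 / ((m : ℝ) + 1) := by
          apply one_div_le_one_div_of_le (by positivity)
          have : (m : ℝ) ≤ n := by exact_mod_cast hmn
          linarith
        linarith
      have h2 := tendsto_measure_iUnion_atTop (μ := μ) hmono
      rw [hU] at h2
      obtain ⟨n, hn⟩ := ((tendsto_order.1 h2).1 a ha).exists
      have h3 : Iio (t + 1 / ((n : ℝ) + 1)) ∈ 𝓝 t := by
        apply Iio_mem_nhds
        have : (0 : ℝ) < 1 / ((n : ℝ) + 1) := by positivity
        linarith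
      filter_upwards [mem_nhdsWithin_of_mem_nhds h3] with s hs
      have hs : s < t + 1 / ((n : ℝ) + 1) := hs
      refine lt_of_lt_of_le hn ?_
      apply measure_mono
      intro x hx
      have hx : x < -(t + 1 / ((n : ℝ) + 1)) := hx
      change x < -s
      linarith
    · intro a ha
      filter_upwards [self_mem_nhdsWithin] with s hs
      have hs : t ≤ s := hs
      refine lt_of_le_of_lt ?_ ha
      apply measure_mono
      intro x hx
      have hx : x < -s := hx
      change x < -t
      linarith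
  unfold ContinuousWithinAt T
  exact (ENNReal.tendsto_toReal (finite_Iio hμ ht).ne).comp h1

/-! ### The kernel -/

lemma kap_measurable : Measurable (fun p : ℝ × ℝ => kap p.1 p.2) := by
  unfold kap
  apply Measurable.sub
  · apply Measurable.ite
    · exact measurableSet_lt measurable_const measurable_snd
    · exact measurable_snd.neg
    · exact measurable_const
  · exact measurable_fst.min measurable_snd.neg

lemma kap_bound {t x : ℝ} (ht : 0 < t) (hx : x < 0) : |kap t x| ≤ (1 + t) * min 1 (-x) ∧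
    |t * kap t x| ≤ (1 + t ^ 2) * min 1 (x ^ 2) := by
  unfold kap
  split_ifs with h
  · have h1 : min t (-x) ≤ -x := min_le_right _ _
    have h2 : 0 ≤ min t (-x) := le_min ht.le (by linarith)
    rw [abs_of_nonneg (by linarith)]
    have h3 : min 1 (-x) = -x := min_eq_right (by linarith)
    have h4 : min 1 (x ^ 2) = x ^ 2 := min_eq_right (by nlinarith)
    rw [h3, h4]
    refine ⟨by nlinarith, ?_⟩
    rcases le_or_gt t (-x) with h5 | h5
    · rw [min_eq_left h5, abs_of_nonneg (by nlinarith)]
      nlinarith [mul_nonneg ht.le ht.le, sq_nonneg (t + x), sq_nonneg x, sq_nonneg (2 * t + x),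
        mul_nonneg (sq_nonneg t) (sq_nonneg x)]
    · rw [min_eq_right h5.le]; simp; positivity
  · have h' : x ≤ -1 := not_lt.1 h
    have h3 : min 1 (-x) = 1 := min_eq_left (by linarith)
    have h4 : min 1 (x ^ 2) = 1 := min_eq_left (by nlinarith)
    have h2 : 0 ≤ min t (-x) := le_min ht.le (by linarith)
    have h5 : min t (-x) ≤ t := min_le_left _ _
    rw [h3, h4, zero_sub, abs_neg, abs_of_nonneg h2, mul_neg, abs_neg,
      abs_of_nonneg (mul_nonneg ht.le h2)]
    constructor
    · linarith
    · nlinarith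

/-- Laplace transform of the kernel. -/
lemma kap_laplace {β x : ℝ} (hβ : 0 < β) (hx : x < 0) :
    IntegrableOn (fun t => Real.exp (-(β * t)) * kap t x) (Ioi 0) ∧
    ∫ t in Ioi 0, Real.exp (-(β * t)) * kap t x =
      (Real.exp (β * x) - 1 - (Set.Ioi (-1 : ℝ)).indicator (fun y => β * y) x) / β ^ 2 := by
  -- the minimum as a primitive
  set ind : ℝ → ℝ := indicator (Ioc 0 (-x)) (fun _ => 1) with hind
  have h1 : (fun t => Real.exp (-(β * t)) * ind t) =
      indicator (Ioc 0 (-x)) (fun t => Real.exp (-β * t)) := by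
    ext t
    by_cases h : t ∈ Ioc 0 (-x)
    · simp [hind, h]
    · simp [hind, h]
  have hindint : Integrable (fun t => Real.exp (-(β * t)) * ind t) := by
    rw [h1, integrable_indicator_iff measurableSet_Ioc]
    exact (integrableOn_exp_mul_Ioi (by linarith) 0).mono_set Ioc_subset_Ioi_self
  have hLT : LT β ind := ⟨fun t ht => by
    rw [hind, indicator_of_notMem (by simp; intro h; linarith)], hindint⟩
  have hLap : Lap β ind = (1 - Real.exp (β * x)) / β := by
    unfold Lap
    rw [h1, integral_indicator measurableSet_Ioc,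
      ← intervalIntegral.integral_of_le (by linarith : (0:ℝ) ≤ -x)]
    rw [intervalIntegral.integral_comp_mul_left (fun t => Real.exp t) (by linarith : -β ≠ 0),
      integral_exp]
    simp only [mul_zero, Real.exp_zero, mul_neg, neg_mul, neg_neg, smul_eq_mul]
    field_simp
    ring
  have hprim : ∀ t, 0 < t → cv one ind t = min t (-x) := by
    intro t ht
    rw [cv_one_apply hLT, intervalIntegral.integral_of_le ht.le, hind,
      setIntegral_indicator measurableSet_Ioc, Ioc_inter_Ioc]
    simp only [sup_idem, integral_const, MeasurableSet.univ, measureReal_restrict_apply,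
      univ_inter, smul_eq_mul, mul_one, Real.volume_real_Ioc]
    rw [sub_zero, max_eq_left]
    exact le_min ht.le (by linarith)
  set c : ℝ := if -1 < x then -x else 0 with hc
  have hone := LT_one hβ
  have hkLT : LT β (fun t => c * one t + - cv one ind t) :=
    (hone.const_mul c).add (hone.cv hLT).neg
  have hEq : ∀ t, Real.exp (-(β * t)) * (c * one t + - cv one ind t) =
      indicator (Ioi 0) (fun t => Real.exp (-(β * t)) * kap t x) t := by
    intro t
    by_cases h : t ∈ Ioi (0 : ℝ)
    · have h : 0 < t := h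
      rw [indicator_of_mem (by exact h), hprim t h]
      simp [kap, hc, one, h]
      ring
    · have h5 : c * one t + -cv one ind t = 0 := hkLT.1 t (not_lt.1 h)
      rw [indicator_of_notMem h, h5, mul_zero]
  have hI := hkLT.2
  simp_rw [hEq] at hI
  rw [integrable_indicator_iff measurableSet_Ioi] at hI
  refine ⟨hI, ?_⟩
  have hL : Lap β (fun t => c * one t + - cv one ind t) =
      ∫ t in Ioi 0, Real.exp (-(β * t)) * kap t x := by
    unfold Lap
    simp_rw [hEq]
    rw [integral_indicator measurableSet_Ioi]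
  rw [← hL, Lap_add (hone.const_mul c) (hone.cv hLT).neg, Lap_const_mul, Lap_neg,
    Lap_cv hone hLT, Lap_one hβ, hLap, hc]
  by_cases h : -1 < x
  · rw [if_pos h, indicator_of_mem (by exact h)]
    field_simp
    ring
  · rw [if_neg h, indicator_of_notMem (by exact h)]
    field_simp
    ring

/-- The integrand of the exponent. -/
noncomputable def ker (β x : ℝ) : ℝ :=
  Real.exp (β * x) - 1 - (Set.Ioi (-1 : ℝ)).indicator (fun y => β * y) x

lemma ker_bound {β x : ℝ} (hβ : 0 < β) (hx : x < 0) :
    |ker β x| ≤ (1 + β ^ 2) * min 1 (x ^ 2) := by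
  unfold ker
  by_cases h : -1 < x
  · rw [indicator_of_mem (by exact h)]
    have h4 : min 1 (x ^ 2) = x ^ 2 := min_eq_right (by nlinarith)
    rw [h4]
    have h5 : 0 ≤ Real.exp (β * x) - 1 - β * x := by
      have := Real.add_one_le_exp (β * x); linarith
    rw [abs_of_nonneg h5]
    have h6 : Real.exp (β * x) ≤ 1 + β * x + (β * x) ^ 2 / 2 := by
      have h7 : 0 ≤ -(β * x) := by nlinarith
      have h8 := Real.quadratic_le_exp_of_nonneg h7
      have h9 : 0 < 1 + -(β * x) + (-(β * x)) ^ 2 / 2 := by positivity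
      have h10 : Real.exp (β * x) = 1 / Real.exp (-(β * x)) := by rw [Real.exp_neg]; simp
      rw [h10, div_le_iff₀ (Real.exp_pos _)]
      have h11 : 0 ≤ 1 + β * x + (β * x) ^ 2 / 2 := by nlinarith [sq_nonneg (1 + β * x)]
      nlinarith [mul_le_mul_of_nonneg_left h8 h11, sq_nonneg ((β * x) ^ 2)]
    nlinarith [sq_nonneg x, mul_nonneg (sq_nonneg β) (sq_nonneg x)]
  · rw [indicator_of_notMem (by exact h)]
    have h' : x ≤ -1 := not_lt.1 h
    have h4 : min 1 (x ^ 2) = 1 := min_eq_left (by nlinarith)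
    rw [h4]
    have h5 : Real.exp (β * x) ≤ 1 := Real.exp_le_one_iff.2 (by nlinarith)
    have h6 := Real.exp_pos (β * x)
    rw [abs_le]
    constructor <;> nlinarith [sq_nonneg β]

lemma ker_measurable (β : ℝ) : Measurable (ker β) := by
  unfold ker
  apply Measurable.sub (by fun_prop)
  exact Measurable.indicator (by fun_prop) measurableSet_Ioi

lemma ker_integrable (hμ0 : μ (Ici 0) = 0)
    (hμ : ∫⁻ x, ENNReal.ofReal (min 1 (x ^ 2)) ∂μ < ⊤) {β : ℝ} (hβ : 0 < β) :
    Integrable (ker β) μ := by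
  apply ((integrable_min hμ).const_mul (1 + β ^ 2)).mono' (ker_measurable β).aestronglyMeasurable
  filter_upwards [ae_neg hμ0] with x hx
  exact ker_bound hβ hx

/-- The sign of the kernel is constant in `t`, so its absolute integral is explicit. -/
lemma kap_abs_laplace {β x : ℝ} (hβ : 0 < β) (hx : x < 0) :
    ∫ t in Ioi 0, ‖Real.exp (-(β * t)) * kap t x‖ = |ker β x| / β ^ 2 := by
  have h1 := (kap_laplace hβ hx).2
  have h0 : ker β x = Real.exp (β * x) - 1 - (Set.Ioi (-1 : ℝ)).indicator (fun y => β * y) x := rfl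
  rw [← h0] at h1
  by_cases h : -1 < x
  · have h2 : ∫ t in Ioi 0, ‖Real.exp (-(β * t)) * kap t x‖ =
        ∫ t in Ioi 0, Real.exp (-(β * t)) * kap t x := by
      apply setIntegral_congr_fun measurableSet_Ioi
      intro t _
      simp only
      rw [Real.norm_eq_abs, abs_of_nonneg]
      apply mul_nonneg (Real.exp_pos _).le
      unfold kap
      rw [if_pos h]
      linarith [min_le_right t (-x)]
    have h3 : 0 ≤ ker β x := by
      rw [h0, indicator_of_mem (by exact h)]
      have := Real.add_one_le_exp (β * x); linarith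
    rw [h2, h1, abs_of_nonneg h3]
  · have h2 : ∫ t in Ioi 0, ‖Real.exp (-(β * t)) * kap t x‖ =
        ∫ t in Ioi 0, -(Real.exp (-(β * t)) * kap t x) := by
      apply setIntegral_congr_fun measurableSet_Ioi
      intro t ht
      have ht : 0 < t := ht
      simp only
      rw [Real.norm_eq_abs, abs_of_nonpos]
      apply mul_nonpos_of_nonneg_of_nonpos (Real.exp_pos _).le
      unfold kap
      rw [if_neg h]
      have : 0 ≤ min t (-x) := le_min ht.le (by linarith)
      linarith
    have h3 : ker β x ≤ 0 := by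
      rw [h0, indicator_of_notMem (by exact h)]
      have : Real.exp (β * x) ≤ 1 := Real.exp_le_one_iff.2 (by nlinarith)
      linarith
    rw [h2, integral_neg, h1, abs_of_nonpos h3]
    ring

lemma kap_prod_integrable (hμ0 : μ (Ici 0) = 0)
    (hμ : ∫⁻ x, ENNReal.ofReal (min 1 (x ^ 2)) ∂μ < ⊤) {β : ℝ} (hβ : 0 < β) :
    Integrable (fun p : ℝ × ℝ => Real.exp (-(β * p.1)) * kap p.1 p.2)
      ((volume.restrict (Ioi 0)).prod μ) := by
  have := sigmaFinite_of hμ0 hμ
  have hmeas : Measurable (fun p : ℝ × ℝ => Real.exp (-(β * p.1)) * kap p.1 p.2) :=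
    (by fun_prop : Measurable (fun p : ℝ × ℝ => Real.exp (-(β * p.1)))).mul kap_measurable
  rw [integrable_prod_iff' hmeas.aestronglyMeasurable]
  constructor
  · filter_upwards [ae_neg hμ0] with x hx
    exact (kap_laplace hβ hx).1
  · have h1 : Integrable (fun x => |ker β x| / β ^ 2) μ :=
      (ker_integrable hμ0 hμ hβ).abs.div_const _
    apply h1.congr
    filter_upwards [ae_neg hμ0] with x hx
    exact (kap_abs_laplace hβ hx).symm

/-- The Laplace transform of `K`. -/
lemma K_laplace (hμ0 : μ (Ici 0) = 0)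
    (hμ : ∫⁻ x, ENNReal.ofReal (min 1 (x ^ 2)) ∂μ < ⊤) {β : ℝ} (hβ : 0 < β) :
    IntegrableOn (fun t => Real.exp (-(β * t)) * K μ t) (Ioi 0) ∧
    ∫ t in Ioi 0, Real.exp (-(β * t)) * K μ t = (∫ x, ker β x ∂μ) / β ^ 2 := by
  have := sigmaFinite_of hμ0 hμ
  have hI := kap_prod_integrable hμ0 hμ hβ
  have h1 : ∀ t, ∫ x, Real.exp (-(β * t)) * kap t x ∂μ = Real.exp (-(β * t)) * K μ t := by
    intro t
    rw [integral_const_mul]; rfl
  refine ⟨?_, ?_⟩
  · have h2 := hI.integral_prod_left
    simp only [h1] at h2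
    exact h2
  · have h2 := integral_integral_swap (μ := volume.restrict (Ioi 0)) (ν := μ)
      (f := fun t x => Real.exp (-(β * t)) * kap t x) hI
    simp only [h1] at h2
    rw [h2, ← integral_div]
    apply integral_congr_ae
    filter_upwards [ae_neg hμ0] with x hx
    exact (kap_laplace hβ hx).2

end

end Pool.Agent.H94
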