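import Mathlib
import Pool.Agent.H94.LevyA

open MeasureTheory Set Filter Topology Real

namespace Pool.Agent.H94

section

variable {μ : Measure ℝ}

/-- Layer cake formula, real version. -/
lemma layer (hμ0 : μ (Ici 0) = 0)
    (hμ : ∫⁻ x, ENNReal.ofReal (min 1 (x ^ 2)) ∂μ < ⊤) {g G : ℝ → ℝ}
    (hg0 : ∀ t, 0 < t → 0 ≤ g t) (hgm : Measurable g)
    (hgi : ∀ t, 0 < t → IntervalIntegrable g volume 0 t)
    (hG : ∀ z, 0 < z → ∫ t in (0:ℝ)..z, g t = G z) (hGi : Integrable (fun x => G (-x)) μ) :
    IntegrableOn (fun t => T μ t * g t) (Ioi 0) ∧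
    ∫ t in Ioi 0, T μ t * g t = ∫ x, G (-x) ∂μ := by
  have h1 := lintegral_comp_eq_lintegral_meas_lt_mul μ (f := fun x => -x) (g := g)
    (by filter_upwards [ae_neg hμ0] with x hx; simp; linarith)
    (by fun_prop) hgi
    (by
      rw [ae_restrict_iff' measurableSet_Ioi]
      exact Eventually.of_forall fun t ht => hg0 t ht)
  have hGnn : ∀ z, 0 < z → 0 ≤ G z := by
    intro z hz
    rw [← hG z hz]
    apply intervalIntegral.integral_nonneg_of_ae_restrict hz.le
    rw [EventuallyLE, ae_restrict_iff' measurableSet_Icc]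
    have h0 : ∀ᵐ x : ℝ, x ≠ 0 := by simp [ae_iff, measure_singleton]
    filter_upwards [h0] with x hx hx2
    exact hg0 x (lt_of_le_of_ne hx2.1 (Ne.symm hx))
  have h2 : ∫⁻ x, ENNReal.ofReal (∫ t in (0:ℝ)..(-x), g t) ∂μ =
      ENNReal.ofReal (∫ x, G (-x) ∂μ) := by
    rw [ofReal_integral_eq_lintegral_ofReal hGi]
    · apply lintegral_congr_ae
      filter_upwards [ae_neg hμ0] with x hx
      rw [hG (-x) (by linarith)]
    · filter_upwards [ae_neg hμ0] with x hx
      exact hGnn (-x) (by linarith)
  have h3 : ∫⁻ t in Ioi 0, μ {a : ℝ | t < -a} * ENNReal.ofReal (g t) =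
      ∫⁻ t in Ioi 0, ENNReal.ofReal (T μ t * g t) := by
    apply setLIntegral_congr_fun measurableSet_Ioi
    intro t ht
    have ht : 0 < t := ht
    have h4 : {a : ℝ | t < -a} = Iio (-t) := by ext a; simp [lt_neg]
    simp only
    rw [h4, ENNReal.ofReal_mul (T_nonneg t)]
    congr 1
    unfold T
    rw [ENNReal.ofReal_toReal (finite_Iio hμ ht).ne]
  rw [h2, h3] at h1
  have hnn : 0 ≤ᵐ[volume.restrict (Ioi 0)] fun t => T μ t * g t := by
    rw [EventuallyLE, ae_restrict_iff' measurableSet_Ioi]
    exact Eventually.of_forall fun t ht => mul_nonneg (T_nonneg t) (hg0 t ht)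
  have hmeas : AEStronglyMeasurable (fun t => T μ t * g t) (volume.restrict (Ioi 0)) :=
    (T_measurable.mul hgm).aestronglyMeasurable
  constructor
  · rw [IntegrableOn, ← lintegral_ofReal_ne_top_iff_integrable hmeas hnn, ← h1]
    exact ENNReal.ofReal_ne_top
  · rw [integral_eq_lintegral_of_nonneg_ae hnn hmeas, ← h1, ENNReal.toReal_ofReal]
    apply integral_nonneg_of_ae
    filter_upwards [ae_neg hμ0] with x hx
    exact hGnn (-x) (by linarith)

lemma kap_integrable (hμ0 : μ (Ici 0) = 0)
    (hμ : ∫⁻ x, ENNReal.ofReal (min 1 (x ^ 2)) ∂μ < ⊤) {t : ℝ} (ht : 0 < t) :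
    Integrable (fun x => kap t x) μ := by
  have hm : Measurable (fun x => kap t x) := kap_measurable.comp (measurable_const.prodMk measurable_id)
  apply ((integrable_min hμ).const_mul ((1 + t ^ 2) / t)).mono' hm.aestronglyMeasurable
  filter_upwards [ae_neg hμ0] with x hx
  have h1 := (kap_bound ht hx).2
  rw [abs_mul, abs_of_pos ht] at h1
  rw [Real.norm_eq_abs, div_mul_eq_mul_div, le_div_iff₀ ht]
  linarith

/-- `K` is a primitive of `-T`. -/
lemma K_sub (hμ0 : μ (Ici 0) = 0)
    (hμ : ∫⁻ x, ENNReal.ofReal (min 1 (x ^ 2)) ∂μ < ⊤) {s t : ℝ} (hs : 0 < s) (hst : s ≤ t) :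
    K μ t - K μ s = - ∫ r in s..t, T μ r := by
  have ht : 0 < t := by linarith
  have h1 : K μ t - K μ s = ∫ x, (kap t x - kap s x) ∂μ := by
    unfold K
    rw [integral_sub (kap_integrable hμ0 hμ ht) (kap_integrable hμ0 hμ hs)]
  have h2 : ∀ x, kap t x - kap s x = -(min t (-x) - min s (-x)) := by
    intro x; unfold kap; ring
  have hint : Integrable (fun x => min t (-x) - min s (-x)) μ := by
    have := ((kap_integrable hμ0 hμ ht).sub (kap_integrable hμ0 hμ hs)).neg
    refine this.congr (Eventually.of_forall fun x => ?_)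
    simp only [Pi.neg_apply, Pi.sub_apply]
    rw [h2]; ring
  have h3 := (layer hμ0 hμ (g := indicator (Ioc s t) (fun _ => 1))
    (G := fun z => min t z - min s z) (fun r _ => indicator_nonneg (fun _ _ => zero_le_one) r)
    (measurable_const.indicator measurableSet_Ioc)
    (by
      intro r _
      rw [intervalIntegrable_iff]
      apply IntegrableOn.integrable
      exact (integrableOn_const (by simp)).indicator measurableSet_Ioc)
    (by
      intro z hz
      rw [intervalIntegral.integral_of_le hz.le, setIntegral_indicator measurableSet_Ioc,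
        Ioc_inter_Ioc]
      simp only [integral_const, MeasurableSet.univ, measureReal_restrict_apply,
        univ_inter, smul_eq_mul, mul_one, Real.volume_real_Ioc]
      rw [show (0:ℝ) ⊔ s = s from max_eq_right hs.le]
      rcases le_or_gt z s with h | h
      · rw [min_eq_right h, min_eq_right (h.trans hst), show z ⊓ t = z from
          min_eq_left (h.trans hst), max_eq_right (by linarith)]
        ring
      · rw [min_eq_left h.le, min_comm t z, max_eq_left]
        have : s ≤ z ⊓ t := le_min h.le hst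
        linarith)
    hint).2
  rw [h1]
  simp_rw [h2]
  rw [integral_neg]
  congr 1
  rw [← h3, intervalIntegral.integral_of_le hst]
  have h4 : ∀ r, T μ r * (indicator (Ioc s t) (fun _ => (1:ℝ))) r =
      indicator (Ioc s t) (T μ) r := by
    intro r
    by_cases h : r ∈ Ioc s t
    · rw [indicator_of_mem h, indicator_of_mem h, mul_one]
    · rw [indicator_of_notMem h, indicator_of_notMem h, mul_zero]
  simp_rw [h4]
  rw [setIntegral_indicator measurableSet_Ioc]
  have h5 : Ioi 0 ∩ Ioc s t = Ioc s t := by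
    apply inter_eq_right.2
    intro r hr
    exact lt_trans hs hr.1
  rw [h5]

lemma T_intervalIntegrable (hμ : ∫⁻ x, ENNReal.ofReal (min 1 (x ^ 2)) ∂μ < ⊤) {s t : ℝ}
    (hs : 0 < s) (ht : 0 < t) : IntervalIntegrable (T μ) volume s t := by
  apply AntitoneOn.intervalIntegrable
  intro x hx y hy hxy
  have : 0 < x := by
    have := hx.1
    exact lt_of_lt_of_le (lt_min hs ht) this
  exact T_anti hμ this hxy

lemma K_eq (hμ0 : μ (Ici 0) = 0)
    (hμ : ∫⁻ x, ENNReal.ofReal (min 1 (x ^ 2)) ∂μ < ⊤) {s t : ℝ} (hs : 0 < s) (ht : 0 < t) :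
    K μ t = K μ s - ∫ r in s..t, T μ r := by
  rcases le_total s t with h | h
  · have := K_sub hμ0 hμ hs h; linarith
  · have h1 := K_sub hμ0 hμ ht h
    rw [intervalIntegral.integral_symm s t] at h1
    linarith

/-- Right derivative of `K`. -/
lemma K_hasDerivWithinAt (hμ0 : μ (Ici 0) = 0)
    (hμ : ∫⁻ x, ENNReal.ofReal (min 1 (x ^ 2)) ∂μ < ⊤) {t : ℝ} (ht : 0 < t) :
    HasDerivWithinAt (K μ) (- T μ t) (Ici t) t := by
  have hs : 0 < t / 2 := by linarith
  have h1 : HasDerivWithinAt (fun u => ∫ r in (t/2)..u, T μ r) (T μ t) (Ici t) t := by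
    apply intervalIntegral.integral_hasDerivWithinAt_right (T_intervalIntegrable hμ hs ht)
      (s := Ici t) (t := Ioi t)
    · exact T_measurable.stronglyMeasurable.stronglyMeasurableAtFilter
    · exact (T_right_cont hμ ht).mono Ioi_subset_Ici_self
  have h2 : HasDerivWithinAt (fun u => K μ (t/2) - ∫ r in (t/2)..u, T μ r) (- T μ t) (Ici t) t := by
    simpa using! h1.const_sub (K μ (t/2))
  apply h2.congr_of_eventuallyEq
  · filter_upwards [self_mem_nhdsWithin] with u hu
    have hu : t ≤ u := hu
    exact K_eq hμ0 hμ hs (by linarith)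
  · exact K_eq hμ0 hμ hs ht

lemma K_continuousAt (hμ0 : μ (Ici 0) = 0)
    (hμ : ∫⁻ x, ENNReal.ofReal (min 1 (x ^ 2)) ∂μ < ⊤) {t : ℝ} (ht : 0 < t) :
    ContinuousAt (K μ) t := by
  have hs : 0 < t / 2 := by linarith
  have h1 : ContinuousOn (fun u => ∫ r in (t/2)..u, T μ r) (uIcc (t/2) (t+1)) := by
    apply intervalIntegral.continuousOn_primitive_interval
    have := T_intervalIntegrable hμ hs (by linarith : 0 < t + 1)
    rw [← intervalIntegrable_iff'] 
    exact this
  rw [uIcc_of_le (by linarith)] at h1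
  have h2 : ContinuousAt (fun u => ∫ r in (t/2)..u, T μ r) t :=
    h1.continuousAt (Icc_mem_nhds (by linarith) (by linarith))
  have h3 : ContinuousAt (fun u => K μ (t/2) - ∫ r in (t/2)..u, T μ r) t :=
    continuousAt_const.sub h2
  apply h3.congr
  filter_upwards [Ioi_mem_nhds ht] with u hu
  exact (K_eq hμ0 hμ hs hu).symm

/-- `t K(t) → 0` as `t → 0+`. -/
lemma K_limit (hμ0 : μ (Ici 0) = 0)
    (hμ : ∫⁻ x, ENNReal.ofReal (min 1 (x ^ 2)) ∂μ < ⊤) :
    Tendsto (fun t => t * K μ t) (𝓝[>] 0) (𝓝 0) := by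
  have h1 : Tendsto (fun t => ∫ x, t * kap t x ∂μ) (𝓝[>] 0) (𝓝 (∫ _x, (0:ℝ) ∂μ)) := by
    apply tendsto_integral_filter_of_dominated_convergence (fun x => 2 * min 1 (x ^ 2))
    · apply Eventually.of_forall
      intro t
      have hm : Measurable (fun x => t * kap t x) :=
        measurable_const.mul (kap_measurable.comp (measurable_const.prodMk measurable_id))
      exact hm.aestronglyMeasurable
    · filter_upwards [self_mem_nhdsWithin,
        mem_nhdsWithin_of_mem_nhds (Iio_mem_nhds (zero_lt_one' ℝ))] with t ht ht1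
      have ht : 0 < t := ht
      have ht1 : t < 1 := ht1
      filter_upwards [ae_neg hμ0] with x hx
      refine (kap_bound ht hx).2.trans ?_
      apply mul_le_mul_of_nonneg_right _ (le_min zero_le_one (sq_nonneg x))
      nlinarith
    · exact (integrable_min hμ).const_mul 2
    · filter_upwards [ae_neg hμ0] with x hx
      have h2 : Tendsto (fun t : ℝ => t * (1 + t)) (𝓝[>] 0) (𝓝 0) := by
        have : Tendsto (fun t : ℝ => t * (1 + t)) (𝓝 0) (𝓝 (0 * (1 + 0))) :=
          (Continuous.tendsto (by fun_prop) 0)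
        rw [zero_mul] at this
        exact this.mono_left nhdsWithin_le_nhds
      apply squeeze_zero_norm' _ h2
      filter_upwards [self_mem_nhdsWithin] with t ht
      have ht : 0 < t := ht
      rw [norm_mul, Real.norm_eq_abs, Real.norm_eq_abs, abs_of_pos ht]
      apply mul_le_mul_of_nonneg_left _ ht.le
      refine (kap_bound ht hx).1.trans ?_
      have : min 1 (-x) ≤ 1 := min_le_left _ _
      nlinarith
  simp only [integral_zero] at h1
  apply h1.congr
  intro t
  rw [integral_const_mul]; rfl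

/-- `t T(t)` is Laplace transformable. -/
lemma tT_integrable (hμ0 : μ (Ici 0) = 0)
    (hμ : ∫⁻ x, ENNReal.ofReal (min 1 (x ^ 2)) ∂μ < ⊤) {β : ℝ} (hβ : 0 < β) :
    IntegrableOn (fun t => T μ t * (t * Real.exp (-(β * t)))) (Ioi 0) := by
  have hcont : Continuous (fun t : ℝ => t * Real.exp (-(β * t))) := by fun_prop
  refine (layer hμ0 hμ (g := fun t => t * Real.exp (-(β * t)))
    (G := fun z => ∫ t in (0:ℝ)..z, t * Real.exp (-(β * t)))
    (fun t ht => by positivity) hcont.measurable
    (fun t _ => hcont.intervalIntegrable _ _) (fun z _ => rfl) ?_).1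
  have hL : LT β (fun x => x * one x) := (LT_one (by linarith : 0 < β / 2)).mul_id (by linarith)
  set C : ℝ := ∫ x, Real.exp (-(β * x)) * (x * one x) with hC
  have hprimc : Continuous (fun z => ∫ t in (0:ℝ)..z, t * Real.exp (-(β * t))) :=
    intervalIntegral.continuous_primitive (fun a b => hcont.intervalIntegrable a b) 0
  apply ((integrable_min hμ).const_mul (1 + C)).mono'
    (hprimc.comp continuous_neg).aestronglyMeasurable
  filter_upwards [ae_neg hμ0] with x hx
  have hz : 0 < -x := by linarith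
  have hnn : 0 ≤ ∫ t in (0:ℝ)..(-x), t * Real.exp (-(β * t)) := by
    apply intervalIntegral.integral_nonneg hz.le
    intro t ht
    exact mul_nonneg ht.1 (Real.exp_pos _).le
  have hcomp : ((fun z => ∫ t in (0:ℝ)..z, t * Real.exp (-(β * t))) ∘ fun a => -a) x =
      ∫ t in (0:ℝ)..(-x), t * Real.exp (-(β * t)) := rfl
  rw [hcomp, Real.norm_eq_abs, abs_of_nonneg hnn]
  have hb1 : ∫ t in (0:ℝ)..(-x), t * Real.exp (-(β * t)) ≤ x ^ 2 := by
    have h1 : ∫ t in (0:ℝ)..(-x), t * Real.exp (-(β * t)) ≤ ∫ t in (0:ℝ)..(-x), t := by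
      apply intervalIntegral.integral_mono_on hz.le (hcont.intervalIntegrable _ _)
        (continuous_id.intervalIntegrable _ _)
      intro t ht
      have : Real.exp (-(β * t)) ≤ 1 := Real.exp_le_one_iff.2 (by nlinarith [ht.1])
      simp only [id]
      nlinarith [ht.1]
    rw [integral_id] at h1
    nlinarith [sq_nonneg x]
  have hCnn : 0 ≤ C := by
    apply integral_nonneg
    intro t
    apply mul_nonneg (Real.exp_pos _).le
    by_cases h : t ∈ Ioi (0:ℝ)
    · have h' : (0:ℝ) < t := h
      simp [one, h, h'.le]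
    · simp [one, h]
  have hb2 : ∫ t in (0:ℝ)..(-x), t * Real.exp (-(β * t)) ≤ C := by
    rw [intervalIntegral.integral_of_le hz.le, hC]
    have h1 : ∫ t in Ioc 0 (-x), t * Real.exp (-(β * t)) =
        ∫ t in Ioc 0 (-x), Real.exp (-(β * t)) * (t * one t) := by
      apply setIntegral_congr_fun measurableSet_Ioc
      intro t ht
      have : t ∈ Ioi (0:ℝ) := ht.1
      simp only [one, indicator_of_mem this]
      ring
    rw [h1]
    apply setIntegral_le_integral hL.2
    apply Eventually.of_forall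
    intro t
    simp only [Pi.zero_apply]
    apply mul_nonneg (Real.exp_pos _).le
    by_cases h : t ∈ Ioi (0:ℝ)
    · have h' : (0:ℝ) < t := h
      simp [one, h, h'.le]
    · simp [one, h]
  rcases le_or_gt (x ^ 2) 1 with h | h
  · rw [min_eq_right h]; nlinarith [sq_nonneg x, mul_nonneg hCnn (sq_nonneg x)]
  · rw [min_eq_left h.le]; linarith

/-- The functions `G` and `φ` of the main argument. -/
noncomputable def Gf (μ : Measure ℝ) (a c : ℝ) (t : ℝ) : ℝ := if 0 < t then (-a + K μ t) / c else 0

noncomputable def phif (μ : Measure ℝ) (a c : ℝ) (t : ℝ) : ℝ :=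
  if 0 < t then (-a + K μ t - t * T μ t) / c else 0

lemma LT_of_integrableOn {β : ℝ} {f F : ℝ → ℝ} (hF : ∀ t, F t = if 0 < t then f t else 0)
    (hf : IntegrableOn (fun t => Real.exp (-(β * t)) * f t) (Ioi 0)) : LT β F := by
  refine ⟨fun t ht => by rw [hF, if_neg (not_lt.2 ht)], ?_⟩
  rw [← integrable_indicator_iff measurableSet_Ioi] at hf
  refine hf.congr (Eventually.of_forall fun t => ?_)
  simp only
  rw [hF]
  by_cases h : 0 < t
  · rw [indicator_of_mem (by exact h), if_pos h]
  · rw [indicator_of_notMem (by exact h), if_neg h, mul_zero]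

lemma Lap_of_integrableOn {β : ℝ} {f F : ℝ → ℝ} (hF : ∀ t, F t = if 0 < t then f t else 0) :
    Lap β F = ∫ t in Ioi 0, Real.exp (-(β * t)) * f t := by
  unfold Lap
  rw [← integral_indicator measurableSet_Ioi]
  congr 1; ext t
  rw [hF]
  by_cases h : 0 < t
  · rw [indicator_of_mem (by exact h), if_pos h]
  · rw [indicator_of_notMem (by exact h), if_neg h, mul_zero]

lemma exp_integrableOn {β : ℝ} (hβ : 0 < β) :
    IntegrableOn (fun t => Real.exp (-(β * t))) (Ioi 0) := by
  have := integrableOn_exp_mul_Ioi (a := -β) (by linarith) 0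
  simpa only [neg_mul] using this

lemma LT_Gf (hμ0 : μ (Ici 0) = 0) (hμ : ∫⁻ x, ENNReal.ofReal (min 1 (x ^ 2)) ∂μ < ⊤)
    (a c : ℝ) {β : ℝ} (hβ : 0 < β) : LT β (Gf μ a c) := by
  apply LT_of_integrableOn (f := fun t => (-a + K μ t) / c) (fun t => rfl)
  have h1 := (((exp_integrableOn hβ).mul_const (-a)).add (K_laplace hμ0 hμ hβ).1).div_const c
  refine h1.congr (Eventually.of_forall fun t => ?_)
  simp only [Pi.add_apply]; ring

lemma Lap_Gf (hμ0 : μ (Ici 0) = 0) (hμ : ∫⁻ x, ENNReal.ofReal (min 1 (x ^ 2)) ∂μ < ⊤)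
    (a : ℝ) {c : ℝ} {β : ℝ} (hβ : 0 < β) :
    Lap β (Gf μ a c) = (-(a * β) + ∫ x, ker β x ∂μ) / (c * β ^ 2) := by
  rw [Lap_of_integrableOn (f := fun t => (-a + K μ t) / c) (F := Gf μ a c) (fun t => rfl)]
  have h2 := (K_laplace hμ0 hμ hβ)
  have h3 : ∫ t in Ioi 0, Real.exp (-(β * t)) = 1 / β := by
    have := integral_exp_mul_Ioi (a := -β) (by linarith) 0
    simp only [neg_mul, mul_zero, neg_zero, Real.exp_zero] at this
    rw [this]; field_simp
  have h4 : ∫ t in Ioi 0, Real.exp (-(β * t)) * ((-a + K μ t) / c) =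
      ∫ t in Ioi 0, (-a / c * Real.exp (-(β * t)) + (Real.exp (-(β * t)) * K μ t) / c) := by
    congr 1; ext t; ring
  rw [h4, integral_add ((exp_integrableOn hβ).const_mul _) (h2.1.div_const c), integral_const_mul,
    integral_div, h2.2, h3]
  rcases eq_or_ne c 0 with hc | hc
  · subst hc; simp
  · field_simp

lemma LT_phif (hμ0 : μ (Ici 0) = 0) (hμ : ∫⁻ x, ENNReal.ofReal (min 1 (x ^ 2)) ∂μ < ⊤)
    (a c : ℝ) {β : ℝ} (hβ : 0 < β) : LT β (phif μ a c) := by
  apply LT_of_integrableOn (f := fun t => (-a + K μ t - t * T μ t) / c) (fun t => rfl)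
  have h1 := ((((exp_integrableOn hβ).mul_const (-a)).add (K_laplace hμ0 hμ hβ).1).sub
    (tT_integrable hμ0 hμ hβ)).div_const c
  refine h1.congr (Eventually.of_forall fun t => ?_)
  simp only [Pi.add_apply, Pi.sub_apply]; ring

/-- `t G(t)` is the primitive of `φ`. -/
lemma Gf_prim (hμ0 : μ (Ici 0) = 0) (hμ : ∫⁻ x, ENNReal.ofReal (min 1 (x ^ 2)) ∂μ < ⊤)
    (a c : ℝ) : (fun x => x * Gf μ a c x) = cv one (phif μ a c) := by
  have hφ := LT_phif hμ0 hμ a c one_pos
  ext x
  rw [cv_one_apply hφ]
  rcases le_or_gt x 0 with hx | hx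
  · have h1 : Gf μ a c x = 0 := by simp [Gf, not_lt.2 hx]
    rw [h1, mul_zero, intervalIntegral.integral_of_ge hx]
    symm
    rw [neg_eq_zero]
    apply setIntegral_eq_zero_of_forall_eq_zero
    intro t ht
    exact hφ.1 t ht.2
  · have h1 := intervalIntegral.integral_eq_sub_of_hasDeriv_right_of_le
      (f := fun t => t * Gf μ a c t) (f' := phif μ a c) hx.le ?_ ?_ (hφ.intervalIntegrable 0 x)
    · rw [h1]; simp
    · intro t ht
      rcases ht.1.eq_or_lt with h0 | h0
      · subst h0
        have h2 : ContinuousWithinAt (fun t => t * Gf μ a c t) (Ioi 0) 0 := by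
          unfold ContinuousWithinAt
          simp only [zero_mul]
          have h3 : Tendsto (fun t => (t * (-a) + t * K μ t) / c) (𝓝[>] 0) (𝓝 0) := by
            have h4 : Tendsto (fun t : ℝ => t * (-a)) (𝓝[>] 0) (𝓝 0) := by
              have : Tendsto (fun t : ℝ => t * (-a)) (𝓝 0) (𝓝 (0 * (-a))) :=
                (Continuous.tendsto (by fun_prop) 0)
              rw [zero_mul] at this
              exact this.mono_left nhdsWithin_le_nhds
            have h5 := (h4.add (K_limit hμ0 hμ)).div_const c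
            simpa using h5
          apply h3.congr'
          filter_upwards [self_mem_nhdsWithin] with t ht
          have ht : 0 < t := ht
          simp only [Gf, if_pos ht]; ring
        have h3 : ContinuousWithinAt (fun t => t * Gf μ a c t) (Ici 0) 0 := by
          rw [← Ioi_insert, continuousWithinAt_insert_self]
          exact h2
        exact h3.mono Icc_subset_Ici_self
      · apply ContinuousAt.continuousWithinAt
        have h2 : ContinuousAt (fun t => t * ((-a + K μ t) / c)) t :=
          continuousAt_id.mul ((continuousAt_const.add (K_continuousAt hμ0 hμ h0)).div_const c)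
        apply h2.congr
        filter_upwards [Ioi_mem_nhds h0] with s hs
        have hs : 0 < s := hs
        simp only [Gf, if_pos hs]
    · intro t ht
      have h0 : 0 < t := ht.1
      have h2 := (K_hasDerivWithinAt hμ0 hμ h0).mono Ioi_subset_Ici_self
      have h3 : HasDerivWithinAt (fun t => t * ((-a + K μ t) / c))
          (1 * ((-a + K μ t) / c) + t * ((- T μ t) / c)) (Ioi t) t := by
        exact (hasDerivWithinAt_id t (Ioi t)).mul ((h2.const_add (-a)).div_const c)
      have h4 : phif μ a c t = 1 * ((-a + K μ t) / c) + t * ((- T μ t) / c) := by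
        simp only [phif, if_pos h0]; ring
      rw [h4]
      apply h3.congr
      · intro s hs
        have hs : 0 < s := h0.trans hs
        simp only [Gf, if_pos hs]
      · simp only [Gf, if_pos h0]

end

/-- The weighted norm becomes small. -/
lemma exists_norm_lt_one {β : ℝ} {G : ℝ → ℝ} (hG : LT β G) (B : ℝ) :
    ∃ b, β ≤ b ∧ B ≤ b ∧ ∫ x, ‖Real.exp (-(b * x)) * G x‖ < 1 := by
  have h1 : Tendsto (fun b => ∫ x, ‖Real.exp (-(b * x)) * G x‖) atTop (𝓝 (∫ _x : ℝ, (0:ℝ))) := by
    apply tendsto_integral_filter_of_dominated_convergence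
      (fun x => ‖Real.exp (-(β * x)) * G x‖)
    · apply Eventually.of_forall
      intro b
      exact ((Continuous.aestronglyMeasurable (by fun_prop)).mul hG.aesm).norm
    · filter_upwards [Ici_mem_atTop β] with b hb
      have hb : β ≤ b := hb
      apply Eventually.of_forall
      intro x
      rw [norm_norm]
      rcases le_or_gt x 0 with hx | hx
      · rw [hG.1 x hx]; simp
      · rw [norm_mul, norm_mul]
        apply mul_le_mul_of_nonneg_right _ (norm_nonneg _)
        rw [Real.norm_eq_abs, Real.norm_eq_abs, abs_of_pos (Real.exp_pos _),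
          abs_of_pos (Real.exp_pos _)]
        apply Real.exp_le_exp.2
        nlinarith
    · exact hG.2.norm
    · apply Eventually.of_forall
      intro x
      rcases le_or_gt x 0 with hx | hx
      · rw [hG.1 x hx]; simp
      · have h2 : Tendsto (fun b : ℝ => Real.exp (-(b * x))) atTop (𝓝 0) := by
          apply Real.tendsto_exp_neg_atTop_nhds_zero.comp
          exact tendsto_id.atTop_mul_const hx
        have h3 := (h2.mul_const (G x)).norm
        simpa using h3
  simp only [integral_zero] at h1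
  obtain ⟨b, hb⟩ := (((tendsto_order.1 h1).2 1 one_pos).and
    ((eventually_ge_atTop β).and (eventually_ge_atTop B))).exists
  exact ⟨b, hb.2.1, hb.2.2, hb.1⟩

end Pool.Agent.H94
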