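import Mathlib
import Pool.Agent.H94.LevyB

open MeasureTheory Set Filter Topology Real

namespace Pool.Agent.H94

lemma iff_deriv {f f' : ℝ → ℝ} (hd : ∀ x, 0 < x → HasDerivAt f (f' x) x) (n : ℕ) :
    ContDiffOn ℝ (n + 1) f (Ioi 0) ↔ ContDiffOn ℝ n f' (Ioi 0) := by
  rw [contDiffOn_succ_iff_deriv_of_isOpen isOpen_Ioi]
  constructor
  · intro h
    exact h.2.2.congr fun x hx => ((hd x hx).deriv).symm
  · intro h
    refine ⟨fun x hx => (hd x hx).differentiableAt.differentiableWithinAt, by simp, ?_⟩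
    exact h.congr fun x hx => (hd x hx).deriv

lemma iff_div {f : ℝ → ℝ} {c : ℝ} (hc : c ≠ 0) (n : ℕ) :
    ContDiffOn ℝ n (fun x => - f x / c) (Ioi 0) ↔ ContDiffOn ℝ n f (Ioi 0) := by
  constructor
  · intro h
    have h1 := (h.neg).mul (contDiffOn_const (c := c))
    refine h1.congr fun x _ => ?_
    field_simp
  · intro h
    exact h.neg.div_const c

section

variable {μ : Measure ℝ}

lemma T_iff (hμ0 : μ (Ici 0) = 0) (hμ : ∫⁻ x, ENNReal.ofReal (min 1 (x ^ 2)) ∂μ < ⊤)
    (a : ℝ) {c : ℝ} (hc : c ≠ 0) (k : ℕ) :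
    ContDiffOn ℝ (k + 1) (Gf μ a c) (Ioi 0) ↔ ContDiffOn ℝ k (T μ) (Ioi 0) := by
  constructor
  · intro h
    have hdiff : DifferentiableOn ℝ (Gf μ a c) (Ioi 0) := h.differentiableOn (by simp)
    have hd : ∀ x, 0 < x → HasDerivAt (Gf μ a c) (- T μ x / c) x := by
      intro x hx
      have h1 := (hdiff x hx).differentiableAt (Ioi_mem_nhds hx)
      have h2 := h1.hasDerivAt
      have h3 : HasDerivWithinAt (Gf μ a c) (- T μ x / c) (Ici x) x := by
        have h4 := ((K_hasDerivWithinAt hμ0 hμ hx).const_add (-a)).div_const c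
        apply h4.congr
        · intro s hs
          have hs : 0 < s := lt_of_lt_of_le hx hs
          simp only [Gf, if_pos hs]
        · simp only [Gf, if_pos hx]
      have h5 := (uniqueDiffWithinAt_Ici x).eq_deriv _ h2.hasDerivWithinAt h3
      rw [← h5]; exact h2
    rw [iff_deriv hd, iff_div hc] at h
    exact h
  · intro h
    have hcont : ContinuousOn (T μ) (Ioi 0) := h.continuousOn
    have hd : ∀ x, 0 < x → HasDerivAt (Gf μ a c) (- T μ x / c) x := by
      intro x hx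
      have h1 : HasDerivAt (fun u => ∫ r in x..u, T μ r) (T μ x) x := by
        apply intervalIntegral.integral_hasDerivAt_right
          (T_intervalIntegrable hμ hx hx)
        · exact T_measurable.stronglyMeasurable.stronglyMeasurableAtFilter
        · exact hcont.continuousAt (Ioi_mem_nhds hx)
      have h2 : HasDerivAt (fun u => (-a + (K μ x - ∫ r in x..u, T μ r)) / c)
          (- T μ x / c) x := by
        exact ((h1.const_sub (K μ x)).const_add (-a)).div_const c
      apply h2.congr_of_eventuallyEq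
      filter_upwards [Ioi_mem_nhds hx] with u hu
      have hu : 0 < u := hu
      simp only [Gf, if_pos hu]
      rw [K_eq hμ0 hμ hx hu]
    rw [iff_deriv hd, iff_div hc]
    exact h

/-- The main theorem. -/
theorem main (μ : Measure ℝ) (a σ : ℝ) (W : ℝ → ℝ) (hμ0 : μ (Ici 0) = 0)
    (hμ : ∫⁻ x, ENNReal.ofReal (min 1 (x ^ 2)) ∂μ < ⊤) (hσ : σ ≠ 0)
    (hWc : ContinuousOn W (Ioi 0))
    (hW : ∃ β₀ : ℝ, ∀ β : ℝ, β₀ < β →
      IntegrableOn (fun x => Real.exp (-(β * x)) * W x) (Ioi 0) ∧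
      ∫ x in Ioi (0 : ℝ), Real.exp (-(β * x)) * W x =
        1 / (-(a * β) + σ ^ 2 * β ^ 2 / 2 + ∫ x, ker β x ∂μ)) (k : ℕ) :
    ContDiffOn ℝ (k + 3 : ℕ) W (Ioi 0) ↔ ContDiffOn ℝ k (T μ) (Ioi 0) := by
  obtain ⟨β₀, hW⟩ := hW
  set c : ℝ := σ ^ 2 / 2 with hc
  have hc0 : 0 < c := by positivity
  obtain ⟨b₁, hb1, hb2, hnorm⟩ := exists_norm_lt_one (LT_Gf hμ0 hμ a c one_pos) (β₀ + 1)
  have hb0 : 0 < b₁ := by linarith
  obtain ⟨H, hH, hres, hHc, hiff⟩ := resolvent hb0 (LT_Gf hμ0 hμ a c hb0)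
    (LT_phif hμ0 hμ a c hb0) (Gf_prim hμ0 hμ a c) hnorm
  set β : ℝ := b₁ + 1 with hβ
  have hβ0 : 0 < β := by linarith
  have hone := LT_one hβ0
  have hIH : LT β (cv one H) := hone.cv hH
  have hIIH : LT β (cv one (cv one H)) := hone.cv hIH
  have hx1 : LT β (cv one one) := hone.cv hone
  set V : ℝ → ℝ := fun x => 1 / c * (cv one one x + - cv one (cv one H) x) with hV
  have hVLT : LT β V := (hx1.add hIIH.neg).const_mul (1 / c)
  set W₁ : ℝ → ℝ := fun x => if 0 < x then W x else 0 with hW₁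
  have hW₁LT : LT β W₁ := LT_of_integrableOn (fun t => rfl) (hW β (by linarith)).1
  have hae : W₁ =ᵐ[volume] V := by
    apply lerch_eq hW₁LT hVLT
    intro b hb
    have hb0 : 0 < b := by linarith
    have hob := hone.mono hb
    have hHb := hH.mono hb
    have h1 : Lap b W₁ = 1 / (-(a * b) + σ ^ 2 * b ^ 2 / 2 + ∫ x, ker b x ∂μ) := by
      rw [Lap_of_integrableOn (f := W) (F := W₁) (fun t => rfl)]
      exact (hW b (by linarith)).2
    have h2 := Lap_Gf hμ0 hμ a (c := c) hb0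
    have h3 := hres b hb
    have h4 : -(a * b) + σ ^ 2 * b ^ 2 / 2 + ∫ x, ker b x ∂μ =
        c * b ^ 2 * (1 + Lap b (Gf μ a c)) := by
      rw [h2]
      field_simp
      rw [hc]; ring
    have h5 : Lap b V = 1 / c * (1 / b * (1 / b) - 1 / b * (1 / b * Lap b H)) := by
      rw [hV, Lap_const_mul, Lap_add (hob.cv hob) (hob.cv (hob.cv hHb)).neg, Lap_neg,
        Lap_cv hob hob, Lap_cv hob (hob.cv hHb), Lap_cv hob hHb, Lap_one hb0]
      ring
    rw [h1, h4, h5]
    have h6 : 1 + Lap b (Gf μ a c) ≠ 0 := by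
      intro h
      rw [h, zero_mul] at h3
      exact zero_ne_one h3
    have h7 : 1 - Lap b H = 1 / (1 + Lap b (Gf μ a c)) := by
      field_simp
      linarith
    have h8 : 1 / c * (1 / b * (1 / b) - 1 / b * (1 / b * Lap b H)) =
        1 / c * (1 / b * (1 / b)) * (1 - Lap b H) := by ring
    rw [h8, h7]
    field_simp
  have hVc : ContinuousOn V (Ioi 0) := by
    apply Continuous.continuousOn
    exact continuous_const.mul ((continuous_cv_one hone).add (continuous_cv_one hIH).neg)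
  have hW₁c : ContinuousOn W₁ (Ioi 0) := hWc.congr fun x hx => by
    have hx : 0 < x := hx
    simp only [hW₁, if_pos hx]
  have heq : EqOn W V (Ioi 0) := by
    intro x hx
    have h1 := eqOn_of_ae hae hW₁c hVc hx
    rw [← h1]
    have hx : 0 < x := hx
    simp only [hW₁, if_pos hx]
  -- derivatives of `V`
  have hone_c : ContinuousOn one (Ioi 0) := by
    apply (continuousOn_const (c := (1:ℝ))).congr
    intro x hx
    simp only [one, indicator_of_mem hx]
  have hd1 : ∀ x, 0 < x → HasDerivAt V (1 / c * (1 + - cv one H x)) x := by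
    intro x hx
    have h1 := hasDerivAt_cv_one hone hone_c hx
    have h2 := hasDerivAt_cv_one hIH (continuous_cv_one hH).continuousOn hx
    have h3 : one x = 1 := by
      have : x ∈ Ioi (0:ℝ) := hx
      simp only [one, indicator_of_mem this]
    rw [h3] at h1
    exact (h1.add h2.neg).const_mul (1 / c)
  have hd2 : ∀ x, 0 < x → HasDerivAt (fun x => 1 / c * (1 + - cv one H x)) (- H x / c) x := by
    intro x hx
    have h2 := hasDerivAt_cv_one hH hHc hx
    have h3 := ((h2.neg).const_add 1).const_mul (1 / c)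
    convert! h3 using 1
    ring
  have e1 : ContDiffOn ℝ (k + 3 : ℕ) W (Ioi 0) ↔ ContDiffOn ℝ (k + 3 : ℕ) V (Ioi 0) :=
    contDiffOn_congr heq
  have e2 : ContDiffOn ℝ (k + 3 : ℕ) V (Ioi 0) ↔
      ContDiffOn ℝ (k + 2 : ℕ) (fun x => 1 / c * (1 + - cv one H x)) (Ioi 0) := by
    have := iff_deriv hd1 (k + 2)
    rw [← this]
    norm_cast
  have e3 : ContDiffOn ℝ (k + 2 : ℕ) (fun x => 1 / c * (1 + - cv one H x)) (Ioi 0) ↔
      ContDiffOn ℝ (k + 1 : ℕ) (fun x => - H x / c) (Ioi 0) := by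
    have := iff_deriv hd2 (k + 1)
    rw [← this]
    norm_cast
  rw [e1, e2, e3, iff_div hc0.ne', ← hiff (k + 1), ← T_iff hμ0 hμ a hc0.ne' k]
  norm_cast

end

end Pool.Agent.H94
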